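import Mathlib
import Pool.Agent.H54.W.Def
import Pool.Agent.H31.Sp.Coarse

set_option autoImplicit false
open Finset

/-! # Windows of helper54's class which are scaled polyominoes

`PR D x y` : tiles of the window. `CoarseR D n H W A` : the row `y` of the window is `[n A (y/n), n W)`, except
for notches: the row may be one tile longer at a reflex corner of the polyomino. `CoarseRC` : the same with the
colours. The cells are `CQ H A (fun _ => W)` of helper31. -/

namespace Pool.Agent.H95.W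

open Pool.Agent.H54.W (Win)
open Pool.Agent.H31.Sp (CQ)

/-- tiles of the window -/
def PR (D : Win) (x y : ℤ) : Prop := 0 ≤ y ∧ y < D.h ∧ D.a y ≤ x ∧ x < D.w

/-- **The window `D` is a polyomino with cells of side `n`, up to notches at the reflex corners.** The row `Y`
of the polyomino is `A Y ≤ X < W`. -/
structure CoarseR (D : Win) (n H W : ℤ) (A : ℤ → ℤ) : Prop where
  hn : 8 ≤ n
  HH : 0 < H
  hh : D.h = n * H
  ww : D.w = n * W
  AW : ∀ Y, 0 ≤ Y → Y < H → A Y < W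
  a : ∀ y, 0 ≤ y → y < D.h → D.a y = n * A (y / n) ∨ (D.a y = n * A (y / n) - 1 ∧
    ((y % n = n - 1 ∧ y / n + 1 < H ∧ A (y / n + 1) < A (y / n)) ∨
      (y % n = 0 ∧ 0 < y / n ∧ A (y / n - 1) < A (y / n))))

/-- **The same with the colours**: `CL Y` is the colour at the left of the row `Y` of the polyomino. -/
structure CoarseRC (D : Win) (n H W : ℤ) (A : ℤ → ℤ) (CL : ℤ → Bool) : Prop
    extends CoarseR D n H W A where
  cl : ∀ y, 0 ≤ y → y < D.h → D.cl y = CL (y / n)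

variable {D : Win} {n H W : ℤ} {A : ℤ → ℤ} {x y X Y : ℤ}

namespace CoarseR

variable (C : CoarseR D n H W A)

include C

lemma pos : 0 < n := by have := C.hn; omega

/-- the row of cells -/
lemma row (h0 : 0 ≤ y) (h1 : y < D.h) : 0 ≤ y / n ∧ y / n < H := by
  have hn := C.pos
  have hh := C.hh
  refine ⟨Int.ediv_nonneg h0 hn.le, ?_⟩
  rw [Int.ediv_lt_iff_lt_mul hn, mul_comm]
  omega

lemma row_iff : (0 ≤ y / n ∧ y / n < H) ↔ (0 ≤ y ∧ y < D.h) := by
  have hn := C.pos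
  have hh := C.hh
  constructor
  · rintro ⟨h1, h2⟩
    rw [Int.ediv_lt_iff_lt_mul hn, mul_comm] at h2
    have h3 := Int.emod_add_mul_ediv y n
    have h4 := Int.emod_nonneg y hn.ne'
    have h5 : 0 ≤ n * (y / n) := mul_nonneg hn.le h1
    omega
  · rintro ⟨h1, h2⟩
    exact C.row h1 h2

lemma a_le (h0 : 0 ≤ y) (h1 : y < D.h) : n * A (y / n) - 1 ≤ D.a y ∧ D.a y ≤ n * A (y / n) := by
  rcases C.a y h0 h1 with h | ⟨h, -⟩ <;> omega

/-- cells without the notches -/
lemma inP_of (hQ : CQ H A (fun _ => W) (x / n) (y / n)) : PR D x y := by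
  have hn := C.pos
  obtain ⟨h1, h2, h3, h4⟩ := hQ
  obtain ⟨k1, k2⟩ := C.row_iff.1 ⟨h1, h2⟩
  have g1 := C.a_le k1 k2
  have g2 := C.ww
  rw [Int.le_ediv_iff_mul_le hn, mul_comm] at h3
  rw [Int.ediv_lt_iff_lt_mul hn, mul_comm] at h4
  simp only at h4
  exact ⟨k1, k2, by omega, by omega⟩

/-- tiles which are not notches -/
lemma inP_iff (ht : ¬ ((x % n = 0 ∨ x % n = n - 1) ∧ (y % n = 0 ∨ y % n = n - 1))) :
    PR D x y ↔ CQ H A (fun _ => W) (x / n) (y / n) := by
  have hn := C.pos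
  refine ⟨fun h => ?_, C.inP_of⟩
  obtain ⟨k1, k2, k3, k4⟩ := h
  obtain ⟨h1, h2⟩ := C.row k1 k2
  refine ⟨h1, h2, ?_, ?_⟩
  · rw [Int.le_ediv_iff_mul_le hn, mul_comm]
    rcases C.a _ k1 k2 with g | ⟨g, g'⟩
    · omega
    · by_contra hc
      have e : x = n * A (y / n) - 1 := by omega
      apply ht
      refine ⟨Or.inr ?_, by rcases g' with ⟨g', -⟩ | ⟨g', -⟩ <;> omega⟩
      rw [e, show n * A (y / n) - 1 = (n - 1) + n * (A (y / n) - 1) by ring,
        Int.add_mul_emod_self_left, Int.emod_eq_of_lt (by omega) (by omega)]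
  · rw [Int.ediv_lt_iff_lt_mul hn, mul_comm]
    have := C.ww
    simp only
    omega

/-- a notch is in the column to the left of its cell, in the first or last row of the cell -/
lemma notch (h : PR D x y) (hQ : ¬ CQ H A (fun _ => W) (x / n) (y / n)) : x = n * A (y / n) - 1 ∧
    ((y % n = n - 1 ∧ y / n + 1 < H ∧ A (y / n + 1) < A (y / n)) ∨
      (y % n = 0 ∧ 0 < y / n ∧ A (y / n - 1) < A (y / n))) := by
  have hn := C.pos
  obtain ⟨k1, k2, k3, k4⟩ := h
  obtain ⟨h1, h2⟩ := C.row k1 k2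
  have hw := C.ww
  have h4 : x / n < W := by
    rw [Int.ediv_lt_iff_lt_mul hn, mul_comm]; omega
  have h3 : x / n < A (y / n) := by
    by_contra hc
    exact hQ ⟨h1, h2, not_lt.1 hc, h4⟩
  rw [Int.ediv_lt_iff_lt_mul hn, mul_comm] at h3
  rcases C.a _ k1 k2 with g | ⟨g, g'⟩
  · omega
  · exact ⟨by omega, g'⟩

omit C in
lemma nd1 (_ : CoarseR D n H W A) (h1 : CQ H A (fun _ => W) (X - 1) (Y - 1))
    (h2 : CQ H A (fun _ => W) X Y) :
    CQ H A (fun _ => W) X (Y - 1) ∨ CQ H A (fun _ => W) (X - 1) Y := by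
  obtain ⟨a1, a2, a3, a4⟩ := h1
  obtain ⟨b1, b2, b3, b4⟩ := h2
  exact Or.inl ⟨a1, a2, by omega, b4⟩

omit C in
lemma nd2 (_ : CoarseR D n H W A) (h1 : CQ H A (fun _ => W) X (Y - 1))
    (h2 : CQ H A (fun _ => W) (X - 1) Y) :
    CQ H A (fun _ => W) (X - 1) (Y - 1) ∨ CQ H A (fun _ => W) X Y := by
  obtain ⟨a1, a2, a3, a4⟩ := h1
  obtain ⟨b1, b2, b3, b4⟩ := h2
  exact Or.inr ⟨b1, b2, by omega, a4⟩

/-- the first row of a cell -/
lemma row0 (h0 : 0 ≤ Y) (h1 : Y < H) : 0 ≤ n * Y ∧ n * Y + n ≤ D.h ∧ (n * Y) / n = Y := by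
  have hn := C.pos
  have hh := C.hh
  refine ⟨mul_nonneg hn.le h0, ?_, Int.mul_ediv_cancel_left _ hn.ne'⟩
  have : n * (Y + 1) ≤ n * H := mul_le_mul_of_nonneg_left (by omega) hn.le
  have e : n * (Y + 1) = n * Y + n := by ring
  omega

/-- an inner row of a cell -/
lemma a_mid {k : ℤ} (h0 : 0 ≤ Y) (h1 : Y < H) (h2 : 0 < k) (h3 : k + 1 < n) :
    D.a (n * Y + k) = n * A Y := by
  have hn := C.pos
  obtain ⟨r1, r2, -⟩ := C.row0 h0 h1
  have e1 : (n * Y + k) / n = Y := by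
    rw [Int.add_comm, Int.add_mul_ediv_left _ _ hn.ne', Int.ediv_eq_zero_of_lt (by omega) (by omega),
      zero_add]
  have e2 : (n * Y + k) % n = k := by
    rw [Int.add_comm, Int.add_mul_emod_self_left, Int.emod_eq_of_lt (by omega) (by omega)]
  rcases C.a (n * Y + k) (by omega) (by omega) with h | ⟨-, ⟨h, -⟩ | ⟨h, -⟩⟩
  · rw [e1] at h; exact h
  · rw [e2] at h; omega
  · rw [e2] at h; omega

end CoarseR

end Pool.Agent.H95.W
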