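import Mathlib
import Pool.Agent.Q1.M6e.Wn.LRP

set_option autoImplicit false
open Finset

/-! # The S-property: one position of the interior end in one world

`ModG Γ` : the total of a functional as a function of the weights of finitely many walls, the walls are grouped.
`Mix`, `Nr`, `Lr` : additivity, size and linear response of the walls. `PtD C E A hd N V y` : the natural values
`N s` (walls of the groups of `s` pushed out) are, up to `E`, the totals of every frozen state `y i`, the line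
values `V n` are means of totals, the line passes along the groups of `A`. `PtD.mix`, `PtD.resp`, `PtD.linR` :
the consequences. -/

namespace Pool.Agent.H95.W.BrS

open Pool.Agent.Q1.M6e.Wn (wS sz swn)

/-- a total with finitely many walls, the walls are grouped -/
structure ModG (Γ : Type) where
  κ : Type
  [dk : DecidableEq κ]
  [fk : Fintype κ]
  T : (κ → ℂ) → ℂ
  gr : κ → Γ

attribute [instance] ModG.dk ModG.fk

variable {Γ : Type} [DecidableEq Γ]

namespace ModG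

variable (x : ModG Γ)

/-- everything tied -/
noncomputable def T0 : ℂ := x.T fun _ => 0

/-- the walls of the groups of `s` -/
def ws (s : Finset Γ) : Finset x.κ := univ.filter fun w => x.gr w ∈ s

/-- the walls of one group -/
def wg (g : Γ) : Finset x.κ := univ.filter fun w => x.gr w = g

/-- additivity of the natural responses -/
def Mix (e : ℝ) : Prop := ∀ S : Finset x.κ, ‖x.T (wS S) - x.T0 - ∑ w ∈ S, (x.T (wS {w}) - x.T0)‖ ≤ e

/-- bound of the natural responses -/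
def Nr (L : ℝ) : Prop := ∀ w : x.κ, ‖x.T (wS {w}) - x.T0‖ ≤ L

/-- linear response at the scale `n` with the response function `G` -/
def Lr (n : ℕ) (G : ℂ → ℂ) (A : ℝ) : Prop := ∀ (S : Finset x.κ) (z : x.κ → ℂ),
  (∀ w, 0 ≤ (z w).re ∧ (z w).re ≤ Real.pi ∧ |(z w).im| ≤ 1) →
  ‖x.T (sz S n z) - x.T0 - (n : ℂ) * ∑ w ∈ S, G (z w) * (x.T (wS {w}) - x.T0)‖ ≤ A

variable {x}

lemma wS_empty : (wS (∅ : Finset x.κ)) = fun _ => 0 := by funext w; unfold wS; simp

lemma ws_empty : x.ws ∅ = ∅ := by unfold ws; simp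

lemma ws_single (g : Γ) : x.ws {g} = x.wg g := by unfold ws wg; simp

lemma mem_ws {s : Finset Γ} {w : x.κ} : w ∈ x.ws s ↔ x.gr w ∈ s := by unfold ws; simp

lemma mem_wg {g : Γ} {w : x.κ} : w ∈ x.wg g ↔ x.gr w = g := by unfold wg; simp

lemma sum_ws {s : Finset Γ} {f : x.κ → ℂ} : ∑ w ∈ x.ws s, f w = ∑ g ∈ s, ∑ w ∈ x.wg g, f w := by
  classical
  have e : x.ws s = s.biUnion x.wg := by
    ext w
    rw [mem_ws, mem_biUnion]
    constructor
    · exact fun h => ⟨_, h, mem_wg.2 rfl⟩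
    · rintro ⟨g, h1, h2⟩
      rw [mem_wg.1 h2]; exact h1
  rw [e]
  refine sum_biUnion fun g _ g' _ hne => ?_
  rw [Function.onFun, disjoint_left]
  intro w h1 h2
  exact hne ((mem_wg.1 h1).symm.trans (mem_wg.1 h2))

end ModG

/-- **One position of the interior end in one world.** -/
structure PtD (C E : ℝ) (A : Finset Γ) (hd : Γ → ℂ) (N : Finset Γ → ℂ) (V : ℕ → ℂ) {σ : Type}
    (y : σ → ModG Γ) : Prop where
  ne : Nonempty σ
  nat : ∀ i, ∀ s ⊆ A, ‖(y i).T (wS ((y i).ws s)) - N s‖ ≤ E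
  lin : ∀ n : ℕ, 1 ≤ n → ∀ (ζ : ℂ) (B : ℝ),
    (∀ i, ‖(y i).T (sz ((y i).ws A) n fun w => hd ((y i).gr w)) - ζ‖ ≤ B) → ‖V n - ζ‖ ≤ C * B

section

variable {C E e : ℝ} {A : Finset Γ} {hd : Γ → ℂ} {N : Finset Γ → ℂ} {V : ℕ → ℂ} {σ : Type}
  {y : σ → ModG Γ}

/-- the response of a set of groups is the sum of the responses of the walls -/
lemma PtD.sum (h : PtD C E A hd N V y) (hmix : ∀ i, (y i).Mix e) (i : σ)
    {s : Finset Γ} (hs : s ⊆ A) : ‖(N s - N ∅) - ∑ g ∈ s, ∑ w ∈ (y i).wg g,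
      ((y i).T (wS {w}) - (y i).T0)‖ ≤ 2 * E + e := by
  have h1 := h.nat i s hs
  have h2 := h.nat i ∅ (empty_subset _)
  have h3 := hmix i ((y i).ws s)
  rw [ModG.sum_ws] at h3
  rw [ModG.ws_empty, ModG.wS_empty] at h2
  set S := ∑ g ∈ s, ∑ w ∈ (y i).wg g, ((y i).T (wS {w}) - (y i).T0)
  have e1 : (N s - N ∅) - S = ((y i).T (wS ((y i).ws s)) - (y i).T0 - S) -
      ((y i).T (wS ((y i).ws s)) - N s) + ((y i).T (fun _ => 0) - N ∅) := by
    unfold ModG.T0; ring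
  rw [e1]
  have k1 := norm_add_le (((y i).T (wS ((y i).ws s)) - (y i).T0 - S) -
      ((y i).T (wS ((y i).ws s)) - N s)) ((y i).T (fun _ => 0) - N ∅)
  have k2 := norm_sub_le ((y i).T (wS ((y i).ws s)) - (y i).T0 - S)
      ((y i).T (wS ((y i).ws s)) - N s)
  linarith

/-- **Mixed differences.** -/
theorem PtD.mix (h : PtD C E A hd N V y) (hmix : ∀ i, (y i).Mix e)
    {s t : Finset Γ} (hst : Disjoint s t) (hA : s ∪ t ⊆ A) :
    ‖N (s ∪ t) - N s - N t + N ∅‖ ≤ 3 * (2 * E + e) := by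
  obtain ⟨i⟩ := h.ne
  have h1 := h.sum hmix i hA
  have h2 := h.sum hmix i (subset_union_left.trans hA)
  have h3 := h.sum hmix i (subset_union_right.trans hA)
  rw [sum_union hst] at h1
  set a := ∑ g ∈ s, ∑ w ∈ (y i).wg g, ((y i).T (wS {w}) - (y i).T0)
  set b := ∑ g ∈ t, ∑ w ∈ (y i).wg g, ((y i).T (wS {w}) - (y i).T0)
  have e1 : N (s ∪ t) - N s - N t + N ∅ = ((N (s ∪ t) - N ∅) - (a + b)) - ((N s - N ∅) - a) -
      ((N t - N ∅) - b) := by ring
  rw [e1]
  have k1 := norm_sub_le (((N (s ∪ t) - N ∅) - (a + b)) - ((N s - N ∅) - a)) ((N t - N ∅) - b)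
  have k2 := norm_sub_le ((N (s ∪ t) - N ∅) - (a + b)) ((N s - N ∅) - a)
  linarith

/-- **The natural response of a group.** -/
theorem PtD.resp (h : PtD C E A hd N V y) (hmix : ∀ i, (y i).Mix e) {L : ℝ} {N0 : ℕ}
    (hcard : ∀ i, Fintype.card (y i).κ ≤ N0) (hnr : ∀ i, (y i).Nr L) (hL : 0 ≤ L) {g : Γ} (hg : g ∈ A) :
    ‖N {g} - N ∅‖ ≤ 2 * E + e + N0 * L := by
  obtain ⟨i⟩ := h.ne
  have h1 := h.sum hmix i (singleton_subset_iff.2 hg)
  rw [sum_singleton] at h1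
  have h2 : ‖∑ w ∈ (y i).wg g, ((y i).T (wS {w}) - (y i).T0)‖ ≤ N0 * L := by
    refine (norm_sum_le_of_le _ fun w _ => hnr i w).trans ?_
    rw [sum_const, nsmul_eq_mul]
    refine mul_le_mul_of_nonneg_right ?_ hL
    exact_mod_cast (card_le_univ _).trans (hcard i)
  have e1 : N {g} - N ∅ = ((N {g} - N ∅) - ∑ w ∈ (y i).wg g, ((y i).T (wS {w}) -
      (y i).T0)) + ∑ w ∈ (y i).wg g, ((y i).T (wS {w}) - (y i).T0) := by ring
  rw [e1]
  exact (norm_add_le _ _).trans (add_le_add h1 h2)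

/-- **Linear response of the groups.** -/
theorem PtD.linR (h : PtD C E A hd N V y) (hmix : ∀ i, (y i).Mix e) {B CG : ℝ}
    {G : ℂ → ℂ} {n : ℕ} (hn : 1 ≤ n) (hG : ∀ g, ‖G (hd g)‖ ≤ CG)
    (hh : ∀ g, 0 ≤ (hd g).re ∧ (hd g).re ≤ Real.pi ∧ |(hd g).im| ≤ 1) (hlr : ∀ i, (y i).Lr n G B) :
    ‖V n - N ∅ - (n : ℂ) * ∑ g ∈ A, G (hd g) * (N {g} - N ∅)‖ ≤
      C * (B + E + n * (A.card * (CG * (2 * E + e)))) := by
  have key : ∀ i, ‖(y i).T (sz ((y i).ws A) n fun w => hd ((y i).gr w)) -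
      (N ∅ + (n : ℂ) * ∑ g ∈ A, G (hd g) * (N {g} - N ∅))‖ ≤
      B + E + n * (A.card * (CG * (2 * E + e))) := by
    intro i
    have h1 := hlr i ((y i).ws A) (fun w => hd ((y i).gr w)) fun w => hh _
    rw [ModG.sum_ws] at h1
    have h2 := h.nat i ∅ (empty_subset _)
    rw [ModG.ws_empty, ModG.wS_empty] at h2
    change ‖(y i).T0 - N ∅‖ ≤ E at h2
    have e1 : ∑ g ∈ A, ∑ w ∈ (y i).wg g, G (hd ((y i).gr w)) * ((y i).T (wS {w}) -
        (y i).T0) = ∑ g ∈ A, G (hd g) * ∑ w ∈ (y i).wg g, ((y i).T (wS {w}) - (y i).T0) := by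
      refine sum_congr rfl fun g _ => ?_
      rw [mul_sum]
      refine sum_congr rfl fun w hw => ?_
      rw [ModG.mem_wg.1 hw]
    rw [e1] at h1
    have h3 : ‖∑ g ∈ A, G (hd g) * ((N {g} - N ∅) - ∑ w ∈ (y i).wg g,
        ((y i).T (wS {w}) - (y i).T0))‖ ≤ A.card * (CG * (2 * E + e)) := by
      refine (norm_sum_le_of_le (n := fun _ => CG * (2 * E + e)) _ fun g hgA => ?_).trans ?_
      · rw [norm_mul]
        have h4 := h.sum hmix i (singleton_subset_iff.2 hgA)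
        rw [sum_singleton] at h4
        exact mul_le_mul (hG g) h4 (norm_nonneg _) ((norm_nonneg _).trans (hG g))
      · rw [sum_const, nsmul_eq_mul]
    set T := (y i).T (sz ((y i).ws A) n fun w => hd ((y i).gr w))
    set P := ∑ g ∈ A, G (hd g) * ∑ w ∈ (y i).wg g, ((y i).T (wS {w}) - (y i).T0)
    have e2 : T - (N ∅ + (n : ℂ) * ∑ g ∈ A, G (hd g) * (N {g} - N ∅)) =
        (T - (y i).T0 - (n : ℂ) * P) + ((y i).T0 - N ∅) -
        (n : ℂ) * ∑ g ∈ A, G (hd g) * ((N {g} - N ∅) - ∑ w ∈ (y i).wg g,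
          ((y i).T (wS {w}) - (y i).T0)) := by
      simp only [mul_sub, sum_sub_distrib, P]
      ring
    rw [e2]
    have k1 := norm_sub_le ((T - (y i).T0 - (n : ℂ) * P) + ((y i).T0 - N ∅))
      ((n : ℂ) * ∑ g ∈ A, G (hd g) * ((N {g} - N ∅) - ∑ w ∈ (y i).wg g,
          ((y i).T (wS {w}) - (y i).T0)))
    have k2 := norm_add_le (T - (y i).T0 - (n : ℂ) * P) ((y i).T0 - N ∅)
    have k3 : ‖(n : ℂ) * ∑ g ∈ A, G (hd g) * ((N {g} - N ∅) - ∑ w ∈ (y i).wg g,
          ((y i).T (wS {w}) - (y i).T0))‖ ≤ n * (A.card * (CG * (2 * E + e))) := by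
      rw [norm_mul, Complex.norm_natCast]
      exact mul_le_mul_of_nonneg_left h3 (Nat.cast_nonneg n)
    linarith
  have := h.lin n hn _ _ key
  rw [← sub_sub] at this
  exact this

end

end Pool.Agent.H95.W.BrS
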