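import Mathlib
import Pool.Agent.H95.W.BrS1
import Pool.Agent.H44.FM.LRC

set_option autoImplicit false
open Filter Topology Set

/-! # The S-property: sequences of windows

`ClsP P` : number of walls, additivity `(1 / R) ^ (1 + c)` and size `1 / R` of the natural responses for the class
`P` of totals (functionals bounded by a constant). `LrJ P` : linear response with a response function which is also
the one of the 45 degree rectangles. `BrS` : every interior position of the end is `PtD`. `BrS.natB`, `BrS.mixB`,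
`BrS.linB` : the bounds at every point of a compact set. -/

namespace Pool.Agent.H95.W.BrS

open Pool.Agent.Q1.M4 (lat)
open Pool.Agent.Q1.M6e.Wn (wS sz swn LRat)
open Pool.Agent.Q1.M6e (DL45)
open Pool.Agent.H44.FM (C45at gfix45 c45at_of)
open Pool.Agent.H53.FM (GHypX UBY UB)
open Pool.Agent.H95.R45 (AB45 C45 N45 M45)

variable {Γ : Type} [DecidableEq Γ]

/-- **Natural responses of the class `P`.** -/
def ClsP (P : ℝ → ℕ → ModG Γ → Prop) : Prop :=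
  ∀ η : ℝ, 0 < η → ∃ (N0 : ℕ) (L c : ℝ) (R1 : ℕ), 0 ≤ L ∧ 0 < c ∧ ∀ R : ℕ, R1 ≤ R → ∀ x, P η R x →
    Fintype.card x.κ ≤ N0 ∧ x.Mix (L * (1 / (R : ℝ)) ^ (1 + c)) ∧ x.Nr (L / R)

/-- **Linear response of the class `P`**, with a response function which is also the response function of the
45 degree rectangles. -/
def LrJ (P : ℝ → ℕ → ModG Γ → Prop) : Prop :=
  ∃ C c : ℝ, 0 < c ∧ ∀ η η' : ℝ, 0 < η → 0 < η' → ∀ ε : ℝ, 0 < ε → ∀ Y : ℝ, ∃ ρ1 : ℝ, 0 < ρ1 ∧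
    ∀ ρ : ℝ, 0 < ρ → ρ < ρ1 → ∃ R0 : ℕ, ∀ R : ℕ, R0 ≤ R → ∃ G : ℂ → ℂ, GHypX C c Y G ∧
    LRat η' R ⌊ρ * R⌋₊ G (ε * ρ * (R : ℝ) ^ (2 / 3 : ℝ)) ∧ ∀ x, P η R x → x.Lr ⌊ρ * R⌋₊ G (ε * ρ)

/-- **Sequence of windows**, size `R j`. `N p s j v` : natural functional of the world `p`, the walls of the
groups of `s ⊆ arc p` pushed out, interior end at `v`; `V p j n v` : the same with the line of rapidity `π / 2 + i log n`
along the walls of the groups of `arc p`. -/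
def Seq (P : ℝ → ℕ → ModG Γ → Prop) (R : ℕ → ℕ) (F : Filter ℕ) (Ω : Set ℂ)
    (arc : Bool → Finset Γ) (hd : Γ → ℂ) (N : Bool → Finset Γ → ℕ → ℤ × ℤ → ℂ)
    (V : Bool → ℕ → ℕ → ℤ × ℤ → ℂ) : Prop :=
  ∀ K ⊆ Ω, IsCompact K → ∃ η > 0, ∃ C : ℝ, ∀ ε > 0, ∀ᶠ j in F, ∀ v : ℤ × ℤ,
    lat v / ((R j : ℝ) : ℂ) ∈ K → ∀ p : Bool, ∃ (σ : Type) (y : σ → ModG Γ),
      PtD C (ε / R j) (arc p) hd (fun s => N p s j v) (fun n => V p j n v) y ∧ ∀ i, P η (R j) (y i)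

variable {P : ℝ → ℕ → ModG Γ → Prop} {R : ℕ → ℕ} {F : Filter ℕ} {Ω : Set ℂ}
  {arc : Bool → Finset Γ} {hd : Γ → ℂ} {N : Bool → Finset Γ → ℕ → ℤ × ℤ → ℂ}
  {V : Bool → ℕ → ℕ → ℤ × ℤ → ℂ}

/-! ### Numbers -/

lemma pow_one {r c : ℝ} (hr : 0 < r) : (1 / r) ^ (1 + c) = r ^ (-c) / r := by
  rw [one_div, Real.inv_rpow hr.le, ← Real.rpow_neg hr.le, neg_add, Real.rpow_add hr, Real.rpow_neg_one]
  field_simp

lemma rp_tend {R : ℕ → ℕ} {F : Filter ℕ} (hR : Tendsto R F atTop) {c : ℝ} (hc : 0 < c) :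
    Tendsto (fun j => (R j : ℝ) ^ (-c)) F (𝓝 0) :=
  (tendsto_rpow_neg_atTop hc).comp (tendsto_natCast_atTop_atTop.comp hR)

/-- **Natural responses.** -/
theorem Seq.natB (H : Seq P R F Ω arc hd N V) (hP : ClsP P) (hR : Tendsto R F atTop) {K : Set ℂ}
    (hK : K ⊆ Ω) (hKc : IsCompact K) : ∃ B : ℝ, 0 ≤ B ∧ ∀ᶠ j in F, ∀ v : ℤ × ℤ,
      lat v / ((R j : ℝ) : ℂ) ∈ K → ∀ p, ∀ g ∈ arc p, ‖N p {g} j v - N p ∅ j v‖ ≤ B / R j := by
  obtain ⟨η, hη, C, hp⟩ := H K hK hKc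
  obtain ⟨N0, L, c, R1, hL, hc, hcl⟩ := hP η hη
  have hRr : Tendsto (fun j => (R j : ℝ)) F atTop := tendsto_natCast_atTop_atTop.comp hR
  refine ⟨2 + L + N0 * L, by positivity, ?_⟩
  filter_upwards [hp 1 one_pos, hR.eventually_ge_atTop R1, hRr.eventually_ge_atTop 1] with j h1 h2 h3 v hv p g hg
  obtain ⟨σ, y, hy, hPy⟩ := h1 v hv p
  have hRp : (0 : ℝ) < R j := by linarith
  have key := hy.resp (fun i => (hcl _ h2 _ (hPy i)).2.1) (fun i => (hcl _ h2 _ (hPy i)).1)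
    (fun i => (hcl _ h2 _ (hPy i)).2.2) (by positivity) hg
  refine key.trans ?_
  rw [pow_one hRp]
  have e1 : (R j : ℝ) ^ (-c) ≤ 1 := Real.rpow_le_one_of_one_le_of_nonpos h3 (by linarith)
  have e2 : L * ((R j : ℝ) ^ (-c) / R j) ≤ L * (1 / R j) := by gcongr
  have e3 : (2 + L + N0 * L) / (R j : ℝ) = 2 * (1 / R j) + L * (1 / R j) + N0 * (L / R j) := by ring
  rw [e3]
  linarith

/-- **Mixed differences.** -/
theorem Seq.mixB (H : Seq P R F Ω arc hd N V) (hP : ClsP P) (hR : Tendsto R F atTop) {K : Set ℂ}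
    (hK : K ⊆ Ω) (hKc : IsCompact K) {ε : ℝ} (hε : 0 < ε) : ∀ᶠ j in F, ∀ v : ℤ × ℤ,
      lat v / ((R j : ℝ) : ℂ) ∈ K → ∀ p, ∀ s t : Finset Γ, Disjoint s t → s ∪ t ⊆ arc p →
      ‖N p (s ∪ t) j v - N p s j v - N p t j v + N p ∅ j v‖ ≤ ε / R j := by
  obtain ⟨η, hη, C, hp⟩ := H K hK hKc
  obtain ⟨N0, L, c, R1, hL, hc, hcl⟩ := hP η hη
  have hRr : Tendsto (fun j => (R j : ℝ)) F atTop := tendsto_natCast_atTop_atTop.comp hR
  filter_upwards [hp (ε / 12) (by positivity), hR.eventually_ge_atTop R1, hRr.eventually_ge_atTop 1,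
    (rp_tend hR hc).eventually_lt_const (by positivity : (0 : ℝ) < ε / (6 * (L + 1)))]
    with j h1 h2 h3 h4 v hv p s t hst hA
  obtain ⟨σ, y, hy, hPy⟩ := h1 v hv p
  have hRp : (0 : ℝ) < R j := by linarith
  have key := hy.mix (fun i => (hcl _ h2 _ (hPy i)).2.1) hst hA
  refine key.trans ?_
  rw [pow_one hRp]
  have e2 : L * ((R j : ℝ) ^ (-c) / R j) ≤ ε / 6 / R j := by
    rw [← mul_div_assoc]
    refine div_le_div_of_nonneg_right ?_ hRp.le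
    have h5 : (R j : ℝ) ^ (-c) * (6 * (L + 1)) ≤ ε := by
      rw [lt_div_iff₀ (by positivity)] at h4; exact h4.le
    have h6 : (0 : ℝ) ≤ (R j : ℝ) ^ (-c) := by positivity
    nlinarith
  have e3 : ε / (R j : ℝ) = 3 * (2 * (ε / 12 / R j) + ε / 6 / R j) := by ring
  rw [e3]
  linarith

/-- **Linear response.** The response function is arbitrary. -/
theorem Seq.linB (H : Seq P R F Ω arc hd N V) (hP : ClsP P) (hR : Tendsto R F atTop) {K : Set ℂ}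
    (hK : K ⊆ Ω) (hKc : IsCompact K) (hh : ∀ g, 0 ≤ (hd g).re ∧ (hd g).re ≤ Real.pi ∧ |(hd g).im| ≤ 1)
    (CG : ℝ) : ∃ η > 0, ∀ ε > 0, ∃ δ > 0, ∀ ρ : ℝ, 0 < ρ → ∀ᶠ j in F,
    ∀ G : ℂ → ℂ, (∀ g, ‖G (hd g)‖ ≤ CG) →
    (∀ x, P η (R j) x → x.Lr ⌊ρ * (R j : ℝ)⌋₊ G (δ * ρ)) →
    ∀ v : ℤ × ℤ, lat v / ((R j : ℝ) : ℂ) ∈ K → ∀ p,
      ‖V p j ⌊ρ * (R j : ℝ)⌋₊ v - N p ∅ j v -
        (⌊ρ * (R j : ℝ)⌋₊ : ℂ) * ∑ g ∈ arc p, G (hd g) * (N p {g} j v - N p ∅ j v)‖ ≤ ε * ρ := by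
  obtain ⟨η, hη, C, hp⟩ := H K hK hKc
  obtain ⟨N0, L, c, R1, hL, hc, hcl⟩ := hP η hη
  refine ⟨η, hη, fun ε hε => ?_⟩
  have hRr : Tendsto (fun j => (R j : ℝ)) F atTop := tendsto_natCast_atTop_atTop.comp hR
  set C3 : ℝ := |C| + 1 with hC3
  have hC30 : 0 < C3 := by positivity
  set CG' : ℝ := |CG| + 1 with hCG
  have hCG0 : 0 < CG' := by positivity
  set m : ℝ := (arc false).card + (arc true).card + 1 with hm
  have hm0 : 0 < m := by positivity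
  refine ⟨ε / (4 * C3), by positivity, fun ρ hρ => ?_⟩
  set ε1 : ℝ := ε / (4 * C3 * (1 + 2 * (m * CG'))) with hε1
  have hε10 : 0 < ε1 := by positivity
  filter_upwards [hp ε1 hε10, hR.eventually_ge_atTop R1, hRr.eventually_ge_atTop 1,
    hRr.eventually_ge_atTop (1 / ρ),
    (rp_tend hR hc).eventually_lt_const
      (by positivity : (0 : ℝ) < ε / (4 * C3 * (m * CG' * (L + 1))))]
    with j h1 h2 h3 h4 h5 G hG hlr v hv p
  obtain ⟨σ, y, hy, hPy⟩ := h1 v hv p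
  have hRp : (0 : ℝ) < R j := by linarith
  set r : ℝ := (R j : ℝ) with hr
  set n : ℕ := ⌊ρ * r⌋₊ with hn
  have hρr : 1 ≤ ρ * r := by rw [div_le_iff₀ hρ] at h4; linarith
  have hn1 : 1 ≤ n := (Nat.one_le_floor_iff _).2 hρr
  have hnr : (n : ℝ) ≤ ρ * r := Nat.floor_le (by positivity)
  have key := hy.linR (fun i => (hcl _ h2 _ (hPy i)).2.1) hn1
    (fun g => (hG g).trans (by rw [hCG]; linarith [le_abs_self CG] : CG ≤ CG')) hh
    (fun i => hlr _ (hPy i))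
  refine key.trans ?_
  rw [pow_one hRp]
  set u : ℝ := ε / (4 * C3) * ρ with hu
  have hu0 : 0 < u := by positivity
  have hcard : ((arc p).card : ℝ) ≤ m := by
    rw [hm]; cases p
    · have : (0 : ℝ) ≤ (arc true).card := Nat.cast_nonneg _
      linarith
    · have : (0 : ℝ) ≤ (arc false).card := Nat.cast_nonneg _
      linarith
  have t1 : ε1 / r ≤ ε1 * ρ := by
    rw [div_le_iff₀ hRp]
    nlinarith
  have t2 : (n : ℝ) * ((arc p).card * (CG' * (2 * (ε1 / r) + L * (r ^ (-c) / r)))) ≤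
      ρ * (m * (CG' * (2 * ε1 + L * r ^ (-c)))) := by
    have e0 : 2 * (ε1 / r) + L * (r ^ (-c) / r) = (2 * ε1 + L * r ^ (-c)) / r := by ring
    rw [e0]
    have q0 : 0 ≤ (2 * ε1 + L * r ^ (-c)) / r := by positivity
    calc (n : ℝ) * ((arc p).card * (CG' * ((2 * ε1 + L * r ^ (-c)) / r)))
        ≤ (ρ * r) * (m * (CG' * ((2 * ε1 + L * r ^ (-c)) / r))) := by
          refine mul_le_mul hnr ?_ (by positivity) (by positivity)
          exact mul_le_mul_of_nonneg_right hcard (by positivity)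
      _ = _ := by field_simp
  have t3 : m * CG' * (L * r ^ (-c)) ≤ ε / (4 * C3) := by
    rw [lt_div_iff₀ (by positivity)] at h5
    rw [le_div_iff₀ (by positivity)]
    have h6 : (0 : ℝ) ≤ r ^ (-c) := by positivity
    have h7 : m * CG' * (L * r ^ (-c)) * (4 * C3) = r ^ (-c) * (4 * C3 * (m * CG' * L)) := by ring
    rw [h7]
    refine le_trans ?_ h5.le
    refine mul_le_mul_of_nonneg_left ?_ h6
    refine mul_le_mul_of_nonneg_left ?_ (by positivity)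
    exact mul_le_mul_of_nonneg_left (by linarith) (by positivity)
  have t4 : ε1 * (1 + 2 * (m * CG')) = ε / (4 * C3) := by
    rw [hε1]; field_simp
  have t5 : ρ * (m * (CG' * (2 * ε1 + L * r ^ (-c)))) + ε1 * ρ ≤ 2 * u := by
    have e1 : ρ * (m * (CG' * (2 * ε1 + L * r ^ (-c)))) + ε1 * ρ =
        (ε1 * (1 + 2 * (m * CG'))) * ρ + m * CG' * (L * r ^ (-c)) * ρ := by ring
    rw [e1, t4]
    have := mul_le_mul_of_nonneg_right t3 hρ.le
    linarith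
  have t6 : (0 : ℝ) ≤ ε / (4 * C3) * ρ + ε1 / r +
      n * ((arc p).card * (CG' * (2 * (ε1 / r) + L * (r ^ (-c) / r)))) := by positivity
  calc C * (ε / (4 * C3) * ρ + ε1 / r +
      n * ((arc p).card * (CG' * (2 * (ε1 / r) + L * (r ^ (-c) / r)))))
      ≤ C3 * (ε / (4 * C3) * ρ + ε1 / r +
      n * ((arc p).card * (CG' * (2 * (ε1 / r) + L * (r ^ (-c) / r))))) :=
        mul_le_mul_of_nonneg_right (by rw [hC3]; linarith [le_abs_self C]) t6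
    _ ≤ C3 * (3 * u) := mul_le_mul_of_nonneg_left (by linarith) hC30.le
    _ = 3 / 4 * (ε * ρ) := by rw [hu]; field_simp
    _ ≤ ε * ρ := by nlinarith [mul_pos hε hρ]

end Pool.Agent.H95.W.BrS
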