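import Mathlib
import Pool.Agent.H95.W.BrS2
import Pool.Agent.H95.R45.Fin
import Pool.Agent.H44.W.Close5

set_option autoImplicit false
open Filter Topology Set

/-! # The S-property: natural inputs and the track from the windows

`Seq.lo` : sums over compact sets of the responses. `BAb` : chapters A and B. `Seq.trk5` : `Trk5` (over-line) from
`Seq`, `ClsP`, `LrJ` and `BAb`. `Seq.sh` : both worlds moved. -/

namespace Pool.Agent.H95.W.BrS

open Pool.Agent.Q1.M4 (lat)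
open Pool.Agent.Q1.M6f.Glue (uu rr)
open Pool.Agent.Q1.M6e.Wn (wS sz swn LRat)
open Pool.Agent.Q1.M6e (DL45)
open Pool.Agent.H44.FM (C45at gfix45 c45at_of)
open Pool.Agent.H44.FM.WG (Sh norm_lat_le shift_mem' sh_sub)
open Pool.Agent.H44.W
open Pool.Agent.H53.FM (GHypX UBY UB)
open Pool.Agent.H95.R45 (AB45 C45 N45 M45)
open G4

/-! ### Number of lattice points -/

lemma abs_fst_le (v : ℤ × ℤ) : |(v.1 : ℝ)| ≤ ‖lat v‖ := by
  have := Complex.abs_re_le_norm (lat v)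
  unfold lat at *
  simpa using this

lemma abs_snd_le (v : ℤ × ℤ) : |(v.2 : ℝ)| ≤ ‖lat v‖ := by
  have := Complex.abs_im_le_norm (lat v)
  unfold lat at *
  simpa using this

lemma card_lat {K : Set ℂ} (hKc : IsCompact K) : ∃ C : ℝ, 0 < C ∧ ∀ r : ℝ, 1 ≤ r →
    ∀ S : Finset (ℤ × ℤ), (∀ v ∈ S, lat v / (r : ℂ) ∈ K) → (S.card : ℝ) ≤ C * r ^ 2 := by
  obtain ⟨b, hb⟩ := hKc.isBounded.exists_norm_le
  refine ⟨(2 * |b| + 3) ^ 2, by positivity, fun r hr S hS => ?_⟩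
  set m : ℤ := ⌈|b| * r⌉ with hm
  have hm0 : 0 ≤ m := by rw [hm]; positivity
  have hm1 : (m : ℝ) < |b| * r + 1 := Int.ceil_lt_add_one _
  have hsub : S ⊆ Finset.Icc (-m) m ×ˢ Finset.Icc (-m) m := by
    intro v hv
    have h1 := hb _ (hS v hv)
    rw [norm_div, Complex.norm_real, Real.norm_of_nonneg (by linarith), div_le_iff₀ (by linarith)] at h1
    have h2 : ‖lat v‖ ≤ |b| * r := h1.trans (mul_le_mul_of_nonneg_right (le_abs_self b) (by linarith))
    have h3 : |b| * r ≤ m := Int.le_ceil _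
    have h4 := (abs_fst_le v).trans (h2.trans h3)
    have h5 := (abs_snd_le v).trans (h2.trans h3)
    have h4' : |v.1| ≤ m := by exact_mod_cast h4
    have h5' : |v.2| ≤ m := by exact_mod_cast h5
    rw [abs_le] at h4' h5'
    rw [Finset.mem_product, Finset.mem_Icc, Finset.mem_Icc]
    exact ⟨h4', h5'⟩
  have hc := Finset.card_le_card hsub
  rw [Finset.card_product, Int.card_Icc] at hc
  have e1 : (((m + 1 - -m).toNat : ℕ) : ℝ) = 2 * m + 1 := by
    have : ((m + 1 - -m).toNat : ℤ) = 2 * m + 1 := by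
      rw [Int.toNat_of_nonneg (by omega)]; ring
    exact_mod_cast this
  have h6 : (S.card : ℝ) ≤ (2 * m + 1) * (2 * m + 1) := by
    have : (S.card : ℝ) ≤ (((m + 1 - -m).toNat * (m + 1 - -m).toNat : ℕ) : ℝ) := by exact_mod_cast hc
    rw [Nat.cast_mul, e1] at this
    exact this
  have h7 : (2 * (m : ℝ) + 1) ≤ (2 * |b| + 3) * r := by nlinarith
  have h8 : (0 : ℝ) ≤ 2 * m + 1 := by
    have : (0 : ℝ) ≤ m := by exact_mod_cast hm0
    linarith
  calc (S.card : ℝ) ≤ (2 * m + 1) * (2 * m + 1) := h6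
    _ ≤ ((2 * |b| + 3) * r) * ((2 * |b| + 3) * r) := mul_le_mul h7 h7 h8 (h8.trans h7)
    _ = _ := by ring

variable {R : ℕ → ℝ} {F : Filter ℕ} {Ω : Set ℂ} {A B : ℕ → ℤ × ℤ → ℂ}

/-- pointwise bounds `ε / R` -/
lemma la_of (hR : Tendsto R F atTop) (h : ∀ K ⊆ Ω, IsCompact K → ∀ ε > 0, ∀ᶠ j in F, ∀ v : ℤ × ℤ,
    lat v / (R j : ℂ) ∈ K → ‖B j v - A j v‖ ≤ ε / R j) : LA R F Ω A B := by
  intro K hK hKc ε hε
  obtain ⟨C, hC, hcard⟩ := card_lat hKc
  filter_upwards [h K hK hKc (ε / C) (by positivity), hR.eventually_ge_atTop 1] with j h1 h2 S hS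
  have hR0 : 0 < R j := by linarith
  calc ∑ v ∈ S, ‖B j v - A j v‖ ≤ ∑ _v ∈ S, ε / C / R j := Finset.sum_le_sum fun v hv => h1 v (hS v hv)
    _ = S.card * (ε / C / R j) := by rw [Finset.sum_const, nsmul_eq_mul]
    _ ≤ C * R j ^ 2 * (ε / C / R j) := mul_le_mul_of_nonneg_right (hcard _ h2 S hS) (by positivity)
    _ = ε * R j := by field_simp

/-- pointwise bounds `C / R` -/
lemma lo_of (hR : Tendsto R F atTop) (h : ∀ K ⊆ Ω, IsCompact K → ∃ C : ℝ, ∀ᶠ j in F, ∀ v : ℤ × ℤ,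
    lat v / (R j : ℂ) ∈ K → ‖A j v‖ ≤ C / R j) : LO R F Ω A := by
  intro K hK hKc
  obtain ⟨C, hC, hcard⟩ := card_lat hKc
  obtain ⟨D, hD⟩ := h K hK hKc
  refine ⟨C * |D|, ?_⟩
  filter_upwards [hD, hR.eventually_ge_atTop 1] with j h1 h2 S hS
  have hR0 : 0 < R j := by linarith
  calc ∑ v ∈ S, ‖A j v‖ ≤ ∑ _v ∈ S, |D| / R j := Finset.sum_le_sum fun v hv =>
        (h1 v (hS v hv)).trans (by gcongr; exact le_abs_self D)
    _ = S.card * (|D| / R j) := by rw [Finset.sum_const, nsmul_eq_mul]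
    _ ≤ C * R j ^ 2 * (|D| / R j) := mul_le_mul_of_nonneg_right (hcard _ h2 S hS) (by positivity)
    _ = C * |D| * R j := by field_simp

/-! ### Four groups -/

/-- the headings of the groups -/
noncomputable def hd4 : G4 → ℂ
  | fo => (Real.pi / 2 : ℝ)
  | ce => (Real.pi / 2 : ℝ)
  | le => (Real.pi : ℝ)
  | ri => 0

/-- the groups of the arc of the line -/
def arc4 : Bool → Finset G4
  | false => {fo, le, ri}
  | true => {ce}

lemma hd4_re (g : G4) : 0 ≤ (hd4 g).re ∧ (hd4 g).re ≤ Real.pi ∧ (hd4 g).im = 0 := by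
  have hp := Real.pi_pos
  cases g
  · unfold hd4
    rw [Complex.ofReal_re, Complex.ofReal_im]
    exact ⟨by linarith, by linarith, rfl⟩
  · unfold hd4
    rw [Complex.ofReal_re, Complex.ofReal_im]
    exact ⟨by linarith, by linarith, rfl⟩
  · unfold hd4
    rw [Complex.ofReal_re, Complex.ofReal_im]
    exact ⟨by linarith, by linarith, rfl⟩
  · unfold hd4
    rw [Complex.zero_re, Complex.zero_im]
    exact ⟨le_rfl, by linarith, rfl⟩

lemma hd4_ok (g : G4) : 0 ≤ (hd4 g).re ∧ (hd4 g).re ≤ Real.pi ∧ |(hd4 g).im| ≤ 1 := by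
  obtain ⟨h1, h2, h3⟩ := hd4_re g
  exact ⟨h1, h2, by rw [h3, abs_zero]; exact zero_le_one⟩

/-- the response function at the headings -/
lemma hd4_bound {C c Y : ℝ} {G : ℂ → ℂ} (hG : GHypX C c Y G) (hY : 0 < Y) (g : G4) :
    ‖G (hd4 g)‖ ≤ |C| + 1 := by
  obtain ⟨h1, h2, h3⟩ := hd4_re g
  have hp := Real.pi_pos
  have h4 : hd4 g ∈ UBY Y := ⟨⟨by linarith, by linarith⟩, by rw [h3, abs_zero]; exact hY⟩
  have := hG.boundX _ h4
  rw [h3, Real.exp_zero, mul_one] at this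
  linarith [le_abs_self C]

variable {P : ℝ → ℕ → ModG G4 → Prop} {R : ℕ → ℕ} {N : Bool → Finset G4 → ℕ → ℤ × ℤ → ℂ}
  {V : Bool → ℕ → ℕ → ℤ × ℤ → ℂ}

/-- the responses are `O (1 / R)` -/
theorem Seq.lo (H : Seq P R F Ω arc4 hd4 N V) (hP : ClsP P) (hR : Tendsto R F atTop) (p : Bool)
    {g : G4} (hg : g ∈ arc4 p) : LO (fun j => (R j : ℝ)) F Ω (X4 N p g) := by
  refine lo_of (tendsto_natCast_atTop_atTop.comp hR) fun K hK hKc => ?_
  obtain ⟨B, -, hB⟩ := H.natB hP hR hK hKc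
  exact ⟨B, by filter_upwards [hB] with j h1 v hv using h1 v hv p g hg⟩

/-- **Chapters A and B**: the two line values agree up to `o (1)` in the mean, at the rapidity
`π / 2 + i log (ρ R)`. -/
def BAb (R : ℕ → ℝ) (F : Filter ℕ) (Ω : Set ℂ) (V : Bool → ℕ → ℕ → ℤ × ℤ → ℂ) : Prop :=
  ∀ K ⊆ Ω, IsCompact K → ∃ ρ1 > 0, ∀ ρ : ℝ, 0 < ρ → ρ < ρ1 → ∀ ε > 0, ∀ᶠ j in F,
    ∀ S : Finset (ℤ × ℤ), (∀ v ∈ S, lat v / (R j : ℂ) ∈ K) →
    ∑ v ∈ S, ‖V false j ⌊ρ * R j⌋₊ v - V true j ⌊ρ * R j⌋₊ v‖ ≤ ε * R j ^ 2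

/-- **The track of the windows** (over-line). -/
theorem Seq.trk5_of (hDL : DL45) (hAB : AB45) (hC : C45) (hN : N45) (hM : M45) (hP : ClsP P)
    (hL : LrJ P) {m : ℕ → ℕ} (hm : Tendsto m F atTop) (H : Seq P (fun j => 2 * m j) F Ω arc4 hd4 N V)
    (ab : BAb (fun j => ((2 * m j : ℕ) : ℝ)) F Ω V) :
    Trk5 Complex.I (fun j => ((2 * m j : ℕ) : ℝ)) F Ω (fun j n v => V false j n v - V true j n v)
      (N false ∅ - N true ∅) (X4 N false fo - X4 N true ce) (X4 N false le) (X4 N false ri) := by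
  have hR : Tendsto (fun j => 2 * m j) F atTop := tendsto_atTop_mono (fun j => by omega) hm
  have hRr : Tendsto (fun j => ((2 * m j : ℕ) : ℝ)) F atTop := tendsto_natCast_atTop_atTop.comp hR
  obtain ⟨C, c, hc0, hlr⟩ := hL
  refine ⟨ab, fun K hK hKc => ?_, H.lo hP hR false (by decide), H.lo hP hR false (by decide)⟩
  obtain ⟨C2, hC2, hcard⟩ := card_lat hKc
  obtain ⟨η', hη', hlin⟩ := H.linB hP hR hK hKc hd4_ok (|C| + 1)
  refine ⟨c, hc0, fun ε hε => ?_⟩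
  obtain ⟨δ, hδ, hlin⟩ := hlin (ε / (2 * C2)) (by positivity)
  obtain ⟨ε', hε', Y, η2, hη2, ρ2, hρ2, hfix⟩ := gfix45 hAB hC hN hM C c hc0 ε hε
  obtain ⟨ρ3, hρ3, hlr⟩ := hlr η' η2 hη' hη2 (min δ (ε' / 8)) (by positivity) (max Y 2)
  refine ⟨min ρ2 ρ3, lt_min hρ2 hρ3, fun ρ hρ hρl => ?_⟩
  obtain ⟨n0, hfix⟩ := hfix ρ hρ (hρl.trans_le (min_le_left _ _))
  obtain ⟨R0, hlr⟩ := hlr ρ hρ (hρl.trans_le (min_le_right _ _))
  obtain ⟨R1, hat⟩ := c45at_of hDL hη2 C c hε' (le_max_right Y 2) hρ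
  filter_upwards [hlin ρ hρ, hm.eventually_ge_atTop n0, hR.eventually_ge_atTop R0,
    hR.eventually_ge_atTop R1, hRr.eventually_ge_atTop 1] with j h1 h2 h3 h4 h5
  obtain ⟨G, hG, hLat, hx⟩ := hlr (2 * m j) h3
  have hq : (0 : ℝ) ≤ ((2 * m j : ℕ) : ℝ) ^ (2 / 3 : ℝ) := by positivity
  have hL' : LRat η2 (2 * m j) ⌊ρ * ((2 * m j : ℕ) : ℝ)⌋₊ G
      (ε' / 8 * ρ * ((2 * m j : ℕ) : ℝ) ^ (2 / 3 : ℝ)) := by
    intro w h O hO top S hS p q hp hq' t ht d hd
    refine (hLat w h O hO top S hS p q hp hq' t ht d hd).trans ?_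
    exact mul_le_mul_of_nonneg_right (mul_le_mul_of_nonneg_right (min_le_right _ _) hρ.le) hq
  have h45at := hat (2 * m j) h4 G hG hL'
  obtain ⟨f1, f2⟩ := hfix (m j) h2 G (Pool.Agent.H53.FM.GHypX.restr hG (le_max_left _ _)) h45at
  have hY0 : (0 : ℝ) < max Y 2 := lt_max_of_lt_right (by norm_num)
  have h7 := h1 G (hd4_bound hG hY0) fun x hPx S z hz => (hx x hPx S z hz).trans
    (mul_le_mul_of_nonneg_right (min_le_left _ _) hρ.le)
  refine ⟨G (Real.pi / 2 : ℝ), G (Real.pi : ℝ), G 0, hG.lower, f1, ?_, fun S hS => ?_⟩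
  · have e : G 0 - Complex.I * G (Real.pi / 2 : ℝ) =
        -(Complex.I * (G (Real.pi / 2 : ℝ) + Complex.I * G 0)) := by
      have := Complex.I_mul_I
      linear_combination (G 0) * this
    rw [e, norm_neg, norm_mul, Complex.norm_I, one_mul]
    exact f2
  · have hR0 : (0 : ℝ) < ((2 * m j : ℕ) : ℝ) := by linarith
    have pt : ∀ v ∈ S, ‖V false j ⌊ρ * ((2 * m j : ℕ) : ℝ)⌋₊ v - V true j ⌊ρ * ((2 * m j : ℕ) : ℝ)⌋₊ v -
        (N false ∅ - N true ∅) j v - (⌊ρ * ((2 * m j : ℕ) : ℝ)⌋₊ : ℂ) *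
        (G (Real.pi / 2 : ℝ) * (X4 N false fo - X4 N true ce) j v + G (Real.pi : ℝ) * X4 N false le j v +
          G 0 * X4 N false ri j v)‖ ≤ 2 * (ε / (2 * C2) * ρ) := by
      intro v hv
      have a := h7 v (hS v hv) false
      have b := h7 v (hS v hv) true
      have s0 : ∀ f : G4 → ℂ, ∑ g ∈ arc4 false, f g = f fo + f le + f ri := by
        intro f
        unfold arc4
        rw [Finset.sum_insert (by decide), Finset.sum_insert (by decide), Finset.sum_singleton]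
        ring
      have s1 : ∀ f : G4 → ℂ, ∑ g ∈ arc4 true, f g = f ce := by
        intro f
        unfold arc4
        rw [Finset.sum_singleton]
      rw [s0] at a
      rw [s1] at b
      have e : V false j ⌊ρ * ((2 * m j : ℕ) : ℝ)⌋₊ v - V true j ⌊ρ * ((2 * m j : ℕ) : ℝ)⌋₊ v -
          (N false ∅ - N true ∅) j v - (⌊ρ * ((2 * m j : ℕ) : ℝ)⌋₊ : ℂ) *
          (G (Real.pi / 2 : ℝ) * (X4 N false fo - X4 N true ce) j v +
            G (Real.pi : ℝ) * X4 N false le j v + G 0 * X4 N false ri j v) =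
          (V false j ⌊ρ * ((2 * m j : ℕ) : ℝ)⌋₊ v - N false ∅ j v -
            (⌊ρ * ((2 * m j : ℕ) : ℝ)⌋₊ : ℂ) * (G (hd4 fo) * (N false {fo} j v - N false ∅ j v) +
            G (hd4 le) * (N false {le} j v - N false ∅ j v) +
            G (hd4 ri) * (N false {ri} j v - N false ∅ j v))) -
          (V true j ⌊ρ * ((2 * m j : ℕ) : ℝ)⌋₊ v - N true ∅ j v -
            (⌊ρ * ((2 * m j : ℕ) : ℝ)⌋₊ : ℂ) * (G (hd4 ce) * (N true {ce} j v - N true ∅ j v))) := by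
        simp only [X4, Pi.sub_apply, hd4]
        ring
      rw [e]
      exact (norm_sub_le _ _).trans (by linarith)
    calc _ ≤ ∑ _v ∈ S, 2 * (ε / (2 * C2) * ρ) := Finset.sum_le_sum pt
      _ = S.card * (2 * (ε / (2 * C2) * ρ)) := by rw [Finset.sum_const, nsmul_eq_mul]
      _ ≤ C2 * ((2 * m j : ℕ) : ℝ) ^ 2 * (2 * (ε / (2 * C2) * ρ)) :=
        mul_le_mul_of_nonneg_right (hcard _ h5 S hS) (by positivity)
      _ = ε * ρ * ((2 * m j : ℕ) : ℝ) ^ 2 := by field_simp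

/-- **The track of the windows**, the results of stage 1 plugged in. -/
theorem Seq.trk5 (hP : ClsP P) (hL : LrJ P) {m : ℕ → ℕ} (hm : Tendsto m F atTop)
    (H : Seq P (fun j => 2 * m j) F Ω arc4 hd4 N V) (ab : BAb (fun j => ((2 * m j : ℕ) : ℝ)) F Ω V) :
    Trk5 Complex.I (fun j => ((2 * m j : ℕ) : ℝ)) F Ω (fun j n v => V false j n v - V true j n v)
      (N false ∅ - N true ∅) (X4 N false fo - X4 N true ce) (X4 N false le) (X4 N false ri) :=
  H.trk5_of Pool.Agent.H95.R45.dlF Pool.Agent.Q1.M6b.AB.ab45 Pool.Agent.H95.R45.c45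
    Pool.Agent.H95.R45.n45 Pool.Agent.H95.R45.m45 hP hL hm ab

/-! ### Moved windows -/

section sh

variable {Γ : Type} [DecidableEq Γ] {P : ℝ → ℕ → ModG Γ → Prop} {arc : Bool → Finset Γ} {hd : Γ → ℂ}
  {N : Bool → Finset Γ → ℕ → ℤ × ℤ → ℂ}

/-- the world `p` moved by `d p` -/
theorem Seq.sh (hR : Tendsto R F atTop) (hΩ : IsOpen Ω) (H : Seq P R F Ω arc hd N V) (d : Bool → ℤ × ℤ) :
    Seq P R F Ω arc hd (fun p s => Sh (d p) (N p s)) (fun p j n v => V p j n (v - d p)) := by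
  have hRr : Tendsto (fun j => (R j : ℝ)) F atTop := tendsto_natCast_atTop_atTop.comp hR
  intro K hK hKc
  obtain ⟨s, hs, hsub⟩ := hKc.exists_cthickening_subset_open hΩ hK
  obtain ⟨η, hη, C, h⟩ := H _ hsub hKc.cthickening
  refine ⟨η, hη, C, fun ε hε => ?_⟩
  filter_upwards [h ε hε, hRr.eventually_gt_atTop 0, hRr.eventually_gt_atTop (‖lat (d false)‖ / s),
    hRr.eventually_gt_atTop (‖lat (d true)‖ / s)] with j h1 h2 h3 h4 v hv p
  refine h1 (v - d p) (shift_mem' hs h2 ?_ hv) p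
  cases p
  · exact h3
  · exact h4

end sh

/-- the movement of the worlds to the coordinates of the shape -/
def dSh (p : Bool) : ℤ × ℤ := if p then rr else 0

/-- **The track in the coordinates of the shape.** -/
theorem Seq.trk5s (hP : ClsP P) (hL : LrJ P) (hΩ : IsOpen Ω) {m : ℕ → ℕ} (hm : Tendsto m F atTop)
    (H : Seq P (fun j => 2 * m j) F Ω arc4 hd4 N V)
    (ab : BAb (fun j => ((2 * m j : ℕ) : ℝ)) F Ω fun p j n v => V p j n (v - dSh p)) :
    Trk5 Complex.I (fun j => ((2 * m j : ℕ) : ℝ)) F Ω (fun j n v => V false j n v - V true j n (v - rr))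
      (N false ∅ - Sh rr (N true ∅)) (X4 N false fo - Sh rr (X4 N true ce)) (X4 N false le)
      (X4 N false ri) := by
  have hR : Tendsto (fun j => 2 * m j) F atTop := tendsto_atTop_mono (fun j => by omega) hm
  have k := (H.sh hR hΩ dSh).trk5 hP hL hm ab
  have e0 : ∀ A : ℕ → ℤ × ℤ → ℂ, Sh (dSh false) A = A := by
    intro A
    funext j v
    unfold Sh dSh
    simp
  have e1 : ∀ A : ℕ → ℤ × ℤ → ℂ, Sh (dSh true) A = Sh rr A := fun A => rfl
  unfold X4 at k ⊢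
  simp only [e0, e1] at k
  rw [sh_sub]
  have e2 : (fun (j n : ℕ) (v : ℤ × ℤ) => V false j n (v - dSh false) - V true j n (v - dSh true)) =
      fun j n v => V false j n v - V true j n (v - rr) := by
    funext j n v
    unfold dSh
    simp
  rw [e2] at k
  exact k

end Pool.Agent.H95.W.BrS
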