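import Mathlib
import Pool.Agent.H95.W.BrS3
import Pool.Agent.H44.W.Close6

set_option autoImplicit false
open Filter Topology Set

/-! # The S-property: the closing theorem

`fin_hol` : one implication. Inputs: a class `P` of totals with `ClsP` (natural responses) and `LrJ` (linear
response, one response function for the class and the 45 degree rectangles), for both parities `q` the sequence of
windows `Seq` (natural values `h q p s`, line values `V q p`, each world in its own coordinates), chapters A and B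
`BAb` in the coordinates of the shape (world `false` at `v`, world `true` at `v - rr`), and the natural relations
`bdd`, `s1`, `pp`, `s2` of helper44's `NatA`. Output: the box averages of `h q false ∅` converge to a holomorphic
function. `ClsP.or` : union of two classes. -/

namespace Pool.Agent.H95.W.BrS

open Pool.Agent.Q1.M4 (lat)
open Pool.Agent.Q1.M6f.Glue (uu rr)
open Pool.Agent.H44.FM.WG (Sh)
open Pool.Agent.H44.W
open G4

/-- natural responses for a union -/
theorem ClsP.or {Γ : Type} [DecidableEq Γ] {P P' : ℝ → ℕ → ModG Γ → Prop} (h : ClsP P) (h' : ClsP P') :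
    ClsP fun η R x => P η R x ∨ P' η R x := by
  intro η hη
  obtain ⟨N0, L, c, R1, hL, hc, h1⟩ := h η hη
  obtain ⟨N0', L', c', R1', hL', hc', h1'⟩ := h' η hη
  refine ⟨max N0 N0', max L L', min c c', max (max R1 R1') 1, hL.trans (le_max_left _ _), lt_min hc hc',
    fun R hR x hx => ?_⟩
  have r0 : 1 ≤ R := (le_max_right _ _).trans hR
  have r1 : R1 ≤ R := ((le_max_left _ _).trans (le_max_left _ _)).trans hR
  have r2 : R1' ≤ R := ((le_max_right _ _).trans (le_max_left _ _)).trans hR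
  have rp : (0 : ℝ) < R := by exact_mod_cast r0
  have r3 : 0 < 1 / (R : ℝ) := by positivity
  have r4 : 1 / (R : ℝ) ≤ 1 := by
    rw [div_le_one rp]; exact_mod_cast r0
  have mono : ∀ (l a : ℝ), 0 ≤ l → l ≤ max L L' → min c c' ≤ a →
      l * (1 / (R : ℝ)) ^ (1 + a) ≤ max L L' * (1 / (R : ℝ)) ^ (1 + min c c') := by
    intro l a h0 h2 h3
    refine mul_le_mul h2 ?_ (by positivity) (h0.trans h2)
    exact Real.rpow_le_rpow_of_exponent_ge r3 r4 (by linarith)
  rcases hx with hx | hx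
  · obtain ⟨a1, a2, a3⟩ := h1 R r1 x hx
    refine ⟨a1.trans (le_max_left _ _), fun S => (a2 S).trans ?_, fun w => (a3 w).trans ?_⟩
    · exact mono L c hL (le_max_left _ _) (min_le_left _ _)
    · exact div_le_div_of_nonneg_right (le_max_left _ _) rp.le
  · obtain ⟨a1, a2, a3⟩ := h1' R r2 x hx
    refine ⟨a1.trans (le_max_right _ _), fun S => (a2 S).trans ?_, fun w => (a3 w).trans ?_⟩
    · exact mono L' c' hL' (le_max_right _ _) (min_le_right _ _)
    · exact div_le_div_of_nonneg_right (le_max_right _ _) rp.le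

variable {P : ℝ → ℕ → ModG G4 → Prop} {U : Ultrafilter ℕ} {Ω : Set ℂ} {m : ℕ → ℕ} {M : ℝ}
  {h : Bool → Bool → Finset G4 → ℕ → ℤ × ℤ → ℂ} {V : Bool → Bool → ℕ → ℕ → ℤ × ℤ → ℂ}

/-- the natural inputs of helper44 -/
theorem natA_of (hP : ClsP P) (hm : Tendsto m U atTop)
    (H : ∀ q, Seq P (fun j => 2 * m j) U Ω arc4 hd4 (h q) (V q))
    (bdd : ∀ q, Bdd (fun j => ((2 * m j : ℕ) : ℝ)) U Ω M (h q false ∅))
    (s1 : ∀ q, LA (fun j => ((2 * m j : ℕ) : ℝ)) U Ω (h q false {fo}) (h q true {ce}))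
    (pp : ∀ q, LA (fun j => ((2 * m j : ℕ) : ℝ)) U Ω (Sh rr (h q true ∅)) (h (!q) false ∅))
    (s2 : ∀ q, LA (fun j => ((2 * m j : ℕ) : ℝ)) U Ω (Sh uu (h q false {ri})) (h (!q) false {le})) :
    NatA (fun j => ((2 * m j : ℕ) : ℝ)) U Ω M h := by
  have hR : Tendsto (fun j => 2 * m j) U atTop := tendsto_atTop_mono (fun j => by omega) hm
  exact ⟨bdd, s1, pp, s2, fun q g hg => (H q).lo hP hR false hg,
    fun q => (H q).lo hP hR true (Finset.mem_singleton_self _)⟩

/-- **The closing theorem of the S-property.** -/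
theorem fin_hol (hP : ClsP P) (hL : LrJ P) (hΩ : IsOpen Ω) (hM : 0 ≤ M) (hm : Tendsto m U atTop)
    (H : ∀ q, Seq P (fun j => 2 * m j) U Ω arc4 hd4 (h q) (V q))
    (ab : ∀ q, BAb (fun j => ((2 * m j : ℕ) : ℝ)) U Ω fun p j n v => V q p j n (v - dSh p))
    (bdd : ∀ q, Bdd (fun j => ((2 * m j : ℕ) : ℝ)) U Ω M (h q false ∅))
    (s1 : ∀ q, LA (fun j => ((2 * m j : ℕ) : ℝ)) U Ω (h q false {fo}) (h q true {ce}))
    (pp : ∀ q, LA (fun j => ((2 * m j : ℕ) : ℝ)) U Ω (Sh rr (h q true ∅)) (h (!q) false ∅))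
    (s2 : ∀ q, LA (fun j => ((2 * m j : ℕ) : ℝ)) U Ω (Sh uu (h q false {ri})) (h (!q) false {le})) :
    ∃ g : ℂ → ℂ, DifferentiableOn ℂ g Ω ∧ (∀ z ∈ Ω, ‖g z‖ ≤ M) ∧
      ∀ q, WLim (fun j => ((2 * m j : ℕ) : ℝ)) U Ω (h q false ∅) g := by
  have hR : Tendsto (fun j => 2 * m j) U atTop := tendsto_atTop_mono (fun j => by omega) hm
  have hRr : Tendsto (fun j => ((2 * m j : ℕ) : ℝ)) U atTop := tendsto_natCast_atTop_atTop.comp hR
  refine hol6s (V := fun q j n v => V q false j n v - V q true j n (v - rr)) hRr hΩ hM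
    (natA_of hP hm H bdd s1 pp s2) fun q => ?_
  exact (H q).trk5s hP hL hΩ hm (ab q)

end Pool.Agent.H95.W.BrS
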