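import Mathlib
import Pool.Agent.H95.W.Fin
import Pool.Agent.H49.W.Brg
import Pool.Agent.Q1.M6e.FineF
import Pool.Agent.Q1.M6e.HV45of

set_option autoImplicit false
open Filter Topology Set

/-! # The S-property: the closing theorem for a class of cases with `FineVP`

`fin_fine` : `fin_hol` for the totals of the cases of a class `P` with `FineVP P` (for instance the union `orV PI PII`
of the class of the left arc and of the class of the crossed wall, `fineVP_or`) whose functionals are bounded by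
`K`. -/

namespace Pool.Agent.H95.W.BrS

open Pool.Agent.Q1.M4 (lat)
open Pool.Agent.Q1.M6f.Glue (uu rr)
open Pool.Agent.H44.FM.WG (Sh)
open Pool.Agent.H44.W
open Pool.Agent.H15.W (FineVP CaseV)
open Pool.Agent.H49.W (ClsM clsP_of lrJ_of)
open G4

variable {P : ℝ → ℕ → CaseV → Prop} {U : Ultrafilter ℕ} {Ω : Set ℂ} {m : ℕ → ℕ} {M K : ℝ}
  {h : Bool → Bool → Finset G4 → ℕ → ℤ × ℤ → ℂ} {V : Bool → Bool → ℕ → ℕ → ℤ × ℤ → ℂ}

/-- **The closing theorem of the S-property** for a class of cases with `FineVP`. -/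
theorem fin_fine (hF : FineVP P) (hK : 0 ≤ K) (hΩ : IsOpen Ω) (hM : 0 ≤ M) (hm : Tendsto m U atTop)
    (H : ∀ q, Seq (ClsM P K) (fun j => 2 * m j) U Ω arc4 hd4 (h q) (V q))
    (ab : ∀ q, BAb (fun j => ((2 * m j : ℕ) : ℝ)) U Ω fun p j n v => V q p j n (v - dSh p))
    (bdd : ∀ q, Bdd (fun j => ((2 * m j : ℕ) : ℝ)) U Ω M (h q false ∅))
    (s1 : ∀ q, LA (fun j => ((2 * m j : ℕ) : ℝ)) U Ω (h q false {fo}) (h q true {ce}))
    (pp : ∀ q, LA (fun j => ((2 * m j : ℕ) : ℝ)) U Ω (Sh rr (h q true ∅)) (h (!q) false ∅))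
    (s2 : ∀ q, LA (fun j => ((2 * m j : ℕ) : ℝ)) U Ω (Sh uu (h q false {ri})) (h (!q) false {le})) :
    ∃ g : ℂ → ℂ, DifferentiableOn ℂ g Ω ∧ (∀ z ∈ Ω, ‖g z‖ ≤ M) ∧
      ∀ q, WLim (fun j => ((2 * m j : ℕ) : ℝ)) U Ω (h q false ∅) g :=
  fin_hol (clsP_of hF hK) (lrJ_of Pool.Agent.Q1.M6e.fine45 Pool.Agent.Q1.M6e.hv45 hF K) hΩ hM hm H ab bdd
    s1 pp s2

end Pool.Agent.H95.W.BrS
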