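import Pool.Agent.H95.W.BrS2
import Pool.Agent.Q1.M6e.PathP

set_option autoImplicit false
open Filter Topology Set

/-! # The S-property: construction of `PtD` and of `Seq`

`PtD.comb`, `PtD.mix2` : line values which are combinations (sum of the coefficients one, coefficients bounded) of
line values with the same natural values, for instance the two colours of the wall tile of the row of the string.
`ptD_Ec` : the line value is a mean over frozen states. `ptD_one` : one frozen state. `PtD.mono`. `seq_of` : a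
sequence from the error `(1 / R) ^ (1 + c)` at every position. -/

namespace Pool.Agent.H95.W.BrS

open Pool.Agent.Q1 (Ec)
open Pool.Agent.Q1.M4 (lat)
open Pool.Agent.Q1.M6e (Ec_near)
open Pool.Agent.Q1.M6e.Wn (wS sz swn)

variable {Γ : Type} [DecidableEq Γ] {C E C2 : ℝ} {A : Finset Γ} {hd : Γ → ℂ} {N : Finset Γ → ℂ}
  {V : ℕ → ℂ}

section comb

variable {ι : Type} [Fintype ι] [Nonempty ι] {σ : ι → Type} {y : ∀ k, σ k → ModG Γ} {W : ι → ℕ → ℂ}
  {c : ℕ → ι → ℂ}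

/-- **Combination of line values with the same natural values.** -/
theorem PtD.comb (h : ∀ k, PtD C E A hd N (W k) (y k)) (h1 : ∀ n, 1 ≤ n → ∑ k, c n k = 1)
    (h2 : ∀ n, 1 ≤ n → ∑ k, ‖c n k‖ ≤ C2) (hV : ∀ n, 1 ≤ n → V n = ∑ k, c n k * W k n) :
    PtD (C2 * C) E A hd N V (fun x : Σ k, σ k => y x.1 x.2) where
  ne := by
    obtain ⟨k⟩ := ‹Nonempty ι›
    obtain ⟨i⟩ := (h k).ne
    exact ⟨⟨k, i⟩⟩
  nat := fun x s hs => (h x.1).nat x.2 s hs
  lin := by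
    intro n hn ζ B hB
    have k1 : ∀ k, ‖W k n - ζ‖ ≤ C * B := fun k => (h k).lin n hn ζ B fun i => hB ⟨k, i⟩
    have k0 : 0 ≤ C * B := by
      obtain ⟨k⟩ := ‹Nonempty ι›
      exact (norm_nonneg _).trans (k1 k)
    have e : V n - ζ = ∑ k, c n k * (W k n - ζ) := by
      simp only [mul_sub, Finset.sum_sub_distrib]
      rw [← Finset.sum_mul, h1 n hn, one_mul, hV n hn]
    rw [e]
    calc ‖∑ k, c n k * (W k n - ζ)‖ ≤ ∑ k, ‖c n k‖ * (C * B) := by
          refine norm_sum_le_of_le _ fun k _ => ?_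
          rw [norm_mul]
          exact mul_le_mul_of_nonneg_left (k1 k) (norm_nonneg _)
      _ = (∑ k, ‖c n k‖) * (C * B) := by rw [Finset.sum_mul]
      _ ≤ C2 * (C * B) := mul_le_mul_of_nonneg_right (h2 n hn) k0
      _ = C2 * C * B := by ring

end comb

/-- **Two windows** with the weights `κ`, `1 - κ`. -/
theorem PtD.mix2 {σ : Bool → Type} {y : ∀ b, σ b → ModG Γ} {W : Bool → ℕ → ℂ} {κ : ℕ → ℂ}
    (h : ∀ b, PtD C E A hd N (W b) (y b)) (h2 : ∀ n, 1 ≤ n → ‖κ n‖ + ‖1 - κ n‖ ≤ C2)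
    (hV : ∀ n, 1 ≤ n → V n = κ n * W true n + (1 - κ n) * W false n) :
    PtD (C2 * C) E A hd N V (fun x : Σ b, σ b => y x.1 x.2) := by
  refine PtD.comb (c := fun n b => if b then κ n else 1 - κ n) h (fun n hn => ?_) (fun n hn => ?_)
    fun n hn => ?_
  · rw [Fintype.sum_bool]
    simp
  · rw [Fintype.sum_bool]
    simpa using h2 n hn
  · rw [hV n hn, Fintype.sum_bool]
    simp

/-- **Mean over frozen states** `S ⊆ FR` with the weights `q n`. -/
theorem ptD_Ec {α : Type} [DecidableEq α] {q : ℕ → α → ℂ} {FR : Finset α} {C1 : ℝ} (hC1 : 0 ≤ C1)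
    {y : Finset α → ModG Γ} (nat : ∀ S ⊆ FR, ∀ s ⊆ A, ‖(y S).T (wS ((y S).ws s)) - N s‖ ≤ E)
    (hq : ∀ n, 1 ≤ n → ∀ e ∈ FR, ‖q n e‖ ≤ C1 ∧ ‖1 - q n e‖ ≤ C1)
    (hV : ∀ n, 1 ≤ n → V n = Ec (q n) FR fun S =>
      (y S).T (sz ((y S).ws A) n fun w => hd ((y S).gr w))) :
    PtD ((2 * C1) ^ FR.card) E A hd N V (fun S : {S : Finset α // S ⊆ FR} => y S.1) where
  ne := ⟨⟨∅, Finset.empty_subset _⟩⟩
  nat := fun S s hs => nat S.1 S.2 s hs
  lin := by
    intro n hn ζ B hB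
    rw [hV n hn]
    exact Ec_near (fun e he => (hq n hn e he).1) (fun e he => (hq n hn e he).2) hC1
      fun S hS => hB ⟨S, hS⟩

/-- one frozen state -/
theorem ptD_one {y : ModG Γ} (nat : ∀ s ⊆ A, ‖y.T (wS (y.ws s)) - N s‖ ≤ E)
    (hV : ∀ n, 1 ≤ n → V n = y.T (sz (y.ws A) n fun w => hd (y.gr w))) :
    PtD 1 E A hd N V (fun _ : Unit => y) where
  ne := ⟨()⟩
  nat := fun _ s hs => nat s hs
  lin := by
    intro n hn ζ B hB
    rw [hV n hn, one_mul]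
    exact hB ()

/-- larger constants -/
theorem PtD.mono {σ : Type} {y : σ → ModG Γ} (h : PtD C E A hd N V y) {C' E' : ℝ} (hC : C ≤ C')
    (hE : E ≤ E') : PtD C' E' A hd N V y where
  ne := h.ne
  nat := fun i s hs => (h.nat i s hs).trans hE
  lin := by
    intro n hn ζ B hB
    have hB0 : 0 ≤ B := by
      obtain ⟨i⟩ := h.ne
      exact (norm_nonneg _).trans (hB i)
    exact (h.lin n hn ζ B hB).trans (mul_le_mul_of_nonneg_right hC hB0)

/-- **A sequence of windows** from the error `(1 / R) ^ (1 + c)` at every position. -/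
theorem seq_of {P : ℝ → ℕ → ModG Γ → Prop} {R : ℕ → ℕ} {F : Filter ℕ} {Ω : Set ℂ}
    {arc : Bool → Finset Γ} {N : Bool → Finset Γ → ℕ → ℤ × ℤ → ℂ} {V : Bool → ℕ → ℕ → ℤ × ℤ → ℂ}
    (hR : Tendsto R F atTop)
    (h : ∀ K ⊆ Ω, IsCompact K → ∃ η > 0, ∀ p : Bool, ∃ C L c : ℝ, 0 ≤ L ∧ 0 < c ∧ ∃ R1 : ℕ, ∀ j, R1 ≤ R j →
      ∀ v : ℤ × ℤ, lat v / ((R j : ℝ) : ℂ) ∈ K → ∃ (σ : Type) (y : σ → ModG Γ),
        PtD C (L * (1 / (R j : ℝ)) ^ (1 + c)) (arc p) hd (fun s => N p s j v) (fun n => V p j n v) y ∧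
        ∀ i, P η (R j) (y i)) :
    Seq P R F Ω arc hd N V := by
  intro K hK hKc
  obtain ⟨η, hη, h⟩ := h K hK hKc
  obtain ⟨C0, L0, c0, hL0, hc0, R0, h0⟩ := h false
  obtain ⟨C1, L1, c1, hL1, hc1, R1, h1⟩ := h true
  have hRr : Tendsto (fun j => (R j : ℝ)) F atTop := tendsto_natCast_atTop_atTop.comp hR
  refine ⟨η, hη, max C0 C1, fun ε hε => ?_⟩
  filter_upwards [hR.eventually_ge_atTop R0, hR.eventually_ge_atTop R1, hRr.eventually_ge_atTop 1,
    (rp_tend hR hc0).eventually_lt_const (by positivity : (0 : ℝ) < ε / (L0 + 1)),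
    (rp_tend hR hc1).eventually_lt_const (by positivity : (0 : ℝ) < ε / (L1 + 1))]
    with j a0 a1 a2 a3 a4 v hv p
  have hr : (0 : ℝ) < R j := by linarith
  have key : ∀ L c : ℝ, 0 ≤ L → (R j : ℝ) ^ (-c) < ε / (L + 1) →
      L * (1 / (R j : ℝ)) ^ (1 + c) ≤ ε / R j := by
    intro L c hL hlt
    rw [pow_one hr, ← mul_div_assoc]
    refine div_le_div_of_nonneg_right ?_ hr.le
    rw [lt_div_iff₀ (by positivity)] at hlt
    have h6 : (0 : ℝ) ≤ (R j : ℝ) ^ (-c) := by positivity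
    nlinarith
  cases p
  · obtain ⟨σ, y, k1, k2⟩ := h0 j a0 v hv
    exact ⟨σ, y, k1.mono (le_max_left _ _) (key L0 c0 hL0 a3), k2⟩
  · obtain ⟨σ, y, k1, k2⟩ := h1 j a1 v hv
    exact ⟨σ, y, k1.mono (le_max_right _ _) (key L1 c1 hL1 a4), k2⟩

end Pool.Agent.H95.W.BrS
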