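import Mathlib
import Pool.Agent.H20.W.SDef
import Pool.Agent.H72.W.RootI

set_option autoImplicit false
open Filter Topology Set

/-! # Interior positions

`K` a compact set in the interior of the room. `pos_K` : all tiles at distance at most `δ n` from a position
`v` with `v / n ∈ K` are in the room, at distance from the walls. `dp_K` : the same as `DpI` for helper54's windows
in both worlds. -/

namespace Pool.Agent.H95.W

open Pool.Agent.Q1.M4 (lat)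
open Pool.Agent.H54.W (CD)
open Pool.Agent.H20.W (OmC OmC_open)
open Pool.Agent.H72.W.N (DpI InP sh)

/-- **Interior positions**, plain form. -/
theorem pos_K (C : CD) {K : Set ℂ} (hK : K ⊆ OmC C) (hKc : IsCompact K) : ∃ δ : ℝ, 0 < δ ∧ ∃ n0 : ℕ,
    ∀ n : ℤ, (n0 : ℤ) ≤ n → 0 < n ∧ ∀ v : ℤ × ℤ, lat v / ((n : ℝ) : ℂ) ∈ K → ∀ x y : ℤ,
      |((x - v.1 : ℤ) : ℝ)| ≤ δ * n + 1 → |((y - v.2 : ℤ) : ℝ)| ≤ δ * n →
      0 ≤ y ∧ y < n * C.H ∧ n * C.A (y / n) ≤ x ∧ x < n * C.W := by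
  obtain ⟨δ0, hδ0, hsub⟩ := hKc.exists_cthickening_subset_open (OmC_open C) hK
  obtain ⟨N, hN⟩ := exists_nat_gt (4 / δ0 + 1)
  refine ⟨δ0 / 4, by positivity, N, fun n hn => ?_⟩
  have hN0 : (0 : ℝ) < 4 / δ0 := by positivity
  have hnr : (4 / δ0 : ℝ) < n := by
    have h1 : ((N : ℤ) : ℝ) ≤ n := by exact_mod_cast hn
    have h2 : ((N : ℤ) : ℝ) = (N : ℝ) := by simp
    linarith
  have hnp : (0 : ℝ) < n := hN0.trans hnr
  have hn0 : 0 < n := by exact_mod_cast hnp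
  refine ⟨hn0, fun v hv x y hx hy => ?_⟩
  have h4 : 4 < δ0 * n := by
    rw [div_lt_iff₀ hδ0] at hnr
    linarith
  set w : ℂ := ⟨((x : ℝ) + 1 / 2) / n, ((y : ℝ) + 1 / 2) / n⟩ with hw
  have hmem : w ∈ OmC C := by
    refine hsub (Metric.mem_cthickening_of_dist_le _ _ δ0 _ hv ?_)
    rw [dist_eq_norm]
    have hz : lat v / ((n : ℝ) : ℂ) = ⟨(v.1 : ℝ) / n, (v.2 : ℝ) / n⟩ := by
      unfold lat
      apply Complex.ext
      · simp [Complex.div_intCast_re]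
      · simp [Complex.div_intCast_im]
    have e1 : (w - lat v / ((n : ℝ) : ℂ)).re = (((x - v.1 : ℤ) : ℝ) + 1 / 2) / n := by
      rw [hz, Complex.sub_re, hw]
      push_cast
      ring
    have e2 : (w - lat v / ((n : ℝ) : ℂ)).im = (((y - v.2 : ℤ) : ℝ) + 1 / 2) / n := by
      rw [hz, Complex.sub_im, hw]
      push_cast
      ring
    refine (Complex.norm_le_abs_re_add_abs_im _).trans ?_
    rw [e1, e2, abs_div, abs_div, abs_of_pos hnp, ← add_div, div_le_iff₀ hnp]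
    have b1 := abs_add_le ((x - v.1 : ℤ) : ℝ) (1 / 2 : ℝ)
    have b2 := abs_add_le ((y - v.2 : ℤ) : ℝ) (1 / 2 : ℝ)
    have b3 : |(1 / 2 : ℝ)| = 1 / 2 := abs_of_pos (by norm_num)
    rw [b3] at b1 b2
    linarith
  obtain ⟨Y, hY0, hYH, h1, h2, h3, h5⟩ := interior_subset hmem
  simp only [hw] at h1 h2 h3 h5
  rw [le_div_iff₀ hnp] at h1 h3
  rw [div_le_iff₀ hnp] at h2 h5
  have k1 : n * Y ≤ y := by
    have : ((n * Y : ℤ) : ℝ) ≤ (y : ℝ) + 1 / 2 := by push_cast; linarith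
    have h6 : ((n * Y : ℤ) : ℝ) < ((y + 1 : ℤ) : ℝ) := by push_cast at this ⊢; linarith
    have h7 : n * Y < y + 1 := by exact_mod_cast h6
    omega
  have k2 : y < n * Y + n := by
    have : (y : ℝ) + 1 / 2 ≤ ((n * Y + n : ℤ) : ℝ) := by push_cast; linarith
    have h6 : (y : ℝ) < ((n * Y + n : ℤ) : ℝ) := by linarith
    exact_mod_cast h6
  have k3 : n * C.A Y ≤ x := by
    have : ((n * C.A Y : ℤ) : ℝ) ≤ (x : ℝ) + 1 / 2 := by push_cast; linarith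
    have h6 : ((n * C.A Y : ℤ) : ℝ) < ((x + 1 : ℤ) : ℝ) := by push_cast at this ⊢; linarith
    have h7 : n * C.A Y < x + 1 := by exact_mod_cast h6
    omega
  have k4 : x < n * C.W := by
    have : (x : ℝ) + 1 / 2 ≤ ((n * C.W : ℤ) : ℝ) := by push_cast; linarith
    have h6 : (x : ℝ) < ((n * C.W : ℤ) : ℝ) := by linarith
    exact_mod_cast h6
  have hYe : y / n = Y := by
    rw [Int.ediv_eq_iff_of_pos hn0]
    constructor
    · rw [mul_comm]; exact k1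
    · rw [mul_comm]; exact k2
  refine ⟨?_, ?_, ?_, k4⟩
  · have : 0 ≤ n * Y := by positivity
    omega
  · have h6 : n * (Y + 1) ≤ n * C.H := mul_le_mul_of_nonneg_left (by omega) hn0.le
    rw [mul_add, mul_one] at h6
    omega
  · rw [hYe]; exact k3

/-- **Interior positions** in helper54's windows, both worlds. -/
theorem dp_K (C : CD) {K : Set ℂ} (hK : K ⊆ OmC C) (hKc : IsCompact K) : ∃ δ : ℝ, 0 < δ ∧ ∃ n0 : ℕ,
    ∀ n : ℤ, (n0 : ℤ) ≤ n → 0 < n ∧ ∀ v : ℤ × ℤ, lat v / ((n : ℝ) : ℂ) ∈ K →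
    ∀ (he : n % 2 = 0) (h8 : 8 ≤ n) (cr : ℤ → Bool) (p : Bool) (m : ℤ), (m : ℝ) ≤ δ * n →
      DpI (C.win n he h8 cr) p m v.1 v.2 := by
  obtain ⟨δ, hδ, n0, h⟩ := pos_K C hK hKc
  refine ⟨δ, hδ, n0, fun n hn => ?_⟩
  obtain ⟨hn0, h⟩ := h n hn
  refine ⟨hn0, fun v hv he h8 cr p m hm x y g1 g2 g3 g4 => ?_⟩
  have s0 : 0 ≤ sh p ∧ sh p ≤ 1 := by unfold sh; split_ifs <;> omega
  have a1 : |((x + sh p - v.1 : ℤ) : ℝ)| ≤ δ * n + 1 := by
    have h1 : |x + sh p - v.1| ≤ m + 1 := by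
      rw [abs_le]; constructor <;> omega
    have h2 : ((|x + sh p - v.1| : ℤ) : ℝ) ≤ ((m + 1 : ℤ) : ℝ) := by exact_mod_cast h1
    rw [Int.cast_abs] at h2
    push_cast at h2 ⊢
    linarith
  have a2 : |((y - v.2 : ℤ) : ℝ)| ≤ δ * n := by
    have h1 : |y - v.2| ≤ m := by
      rw [abs_le]; constructor <;> omega
    have h2 : ((|y - v.2| : ℤ) : ℝ) ≤ (m : ℝ) := by exact_mod_cast h1
    rw [Int.cast_abs] at h2
    exact h2.trans hm
  obtain ⟨c1, c2, c3, c4⟩ := h v hv (x + sh p) y a1 a2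
  refine ⟨c1, c2, ?_, c4⟩
  change C.wa n y ≤ x + sh p
  rcases C.wa_cases n y with ⟨-, e⟩ | ⟨-, e⟩ <;> omega

end Pool.Agent.H95.W
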