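import Mathlib
import Pool.Agent.H20.Q1.BDk
import Pool.Agent.H15.W.C.Base

set_option autoImplicit false
open Finset

/-!
# Uniform bound for complex weights near one: an abstract functional

`VTog` (helper15) : the functional `V ω P` of the layer `ω` and of the set `P` of tied ties does not change if one
ties a free tie or a tie of a class which is tied. `TotV` : its expectation, `s e` : weight of the tie `e` being
cut. `classesV` : from the ties to the classes. `tot_leV`, `tot_bdV` : uniform bound for weights near one or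
between zero and one.
-/

namespace Pool.Agent.H95.W

open Pool.Agent.H75.Perc Pool.Agent.H75.TwoArm Pool.Agent.H75.Four Pool.Agent.H49.Perc
open Pool.Agent.H99.NC Pool.Agent.H60.Q1 Pool.Agent.Q1 Pool.Agent.H39.Q1 Pool.Agent.H25.Q1.Add
open Pool.Agent.H46.G1 Pool.Agent.Q1.M6b Pool.Agent.Q1.M6c
open Pool.Agent.H59.Q1 (W1)
open Pool.Agent.H69.Q1
open Pool.Agent.H20.Q1
open Pool.Agent.H15.W (VTog TotV)

variable {ι : Type*} [DecidableEq ι] {X : Pool.Agent.Q1.Env} {W Bb B TT ω : Finset (ℤ × ℤ)}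
  {fm : ℤ × ℤ → ι} {co : ι → Bool} {Wl La : ι → Finset (ℤ × ℤ)}
  {b o : ℤ × ℤ → ℤ × ℤ} {s : ℤ × ℤ → ℂ} {V V' : Finset (ℤ × ℤ) → Finset (ℤ × ℤ) → ℂ}

/-- the conditional means of the increments -/
lemma tog_VM {Cs : Finset (ℤ × ℤ)} {a : ℤ × ℤ → ℂ} (h : Multi X W Bb B TT fm co Wl La b o)
    (hc : ∀ c ∈ Cs, FarM X TT fm co Wl La b o c) :
    VTog (VM X Cs a Bb B TT fm co) W B TT fm co Wl La b o :=
  fun _ hω _ hP _ he heP hcase => h.toggle hc hω hP he heP hcase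

lemma tog_add (h : VTog V W B TT fm co Wl La b o) (h' : VTog V' W B TT fm co Wl La b o) :
    VTog (fun ω P => V ω P + V' ω P) W B TT fm co Wl La b o :=
  fun ω hω P hP e he heP hcase => by
    simp only
    rw [h ω hω P hP e he heP hcase, h' ω hω P hP e he heP hcase]

lemma tog_smul (h : VTog V W B TT fm co Wl La b o) (c : ℂ) :
    VTog (fun ω P => c * V ω P) W B TT fm co Wl La b o :=
  fun ω hω P hP e he heP hcase => by
    simp only
    rw [h ω hω P hP e he heP hcase]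

/-- a finite linear combination -/
lemma tog_sum {κ : Type*} {I : Finset κ} {w : κ → ℂ}
    {F : κ → Finset (ℤ × ℤ) → Finset (ℤ × ℤ) → ℂ}
    (h : ∀ i ∈ I, VTog (F i) W B TT fm co Wl La b o) :
    VTog (fun ω P => ∑ i ∈ I, w i * F i ω P) W B TT fm co Wl La b o :=
  fun ω hω P hP e he heP hcase => sum_congr rfl fun i hi => by
    rw [h i hi ω hω P hP e he heP hcase]

/-- **From the ties to the clusters.** -/
theorem classesV (hV : VTog V W B TT fm co Wl La b o) (hω : ω ⊆ B) :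
    Ec (fun e => 1 - s e) TT (V ω) =
      cE (fun k => ∏ e ∈ k, s e) (JM W TT fm co Wl La b o ω)
        (fun A => V ω (unc TT fm co La b ω A)) := by
  classical
  have key := Ec_ties (Ti := TT) (fun e => 1 - s e)
    (R := fun e e' => e' ∈ cls TT fm co La b ω e) (cls TT fm co La b ω)
    (fun e he e' he' => cls_iff he') (free := fre W TT fm co Wl La b o ω)
    (F := V ω)
    (fun P hP e he heP hcase => hV ω hω P hP e he heP hcase)
  rw [key]
  unfold JM unc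
  refine cE_congr (fun k hk => ?_) fun A _ => rfl
  obtain ⟨e0, he0, rfl⟩ := mem_image.1 hk
  unfold phc
  rw [fib_cls]
  exact prod_congr rfl fun e _ => by ring

/-- **uniform bound for complex weights near one or between zero and one** -/
theorem tot_leV (h : Multi X W Bb B TT fm co Wl La b o) (hV : VTog V W B TT fm co Wl La b o)
    {M θ : ℝ} (hθ : 0 ≤ θ) (hM : ∀ ω ⊆ B, ∀ P ⊆ TT, ‖V ω P‖ ≤ M) (hs : ∀ e ∈ TT, Nr θ (s e)) :
    ‖TotV V B TT s‖ ≤
      M * Ex hf B (fun ω => ((1 + θ) ^ 2) ^ (nfr W TT fm co Wl La b o ω).card) := by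
  classical
  have e1 : TotV V B TT s = Eh B (fun ω =>
      cE (fun k => ∏ e ∈ k, s e) (JM W TT fm co Wl La b o ω)
        (fun A => V ω (unc TT fm co La b ω A))) :=
    Ec_congr fun ω hω => classesV hV hω
  rw [e1]
  have hM0 : 0 ≤ M := (norm_nonneg _).trans (hM ∅ (empty_subset _) ∅ (empty_subset _))
  have hb : ∀ ω, ω ⊆ B → ‖cE (fun k => ∏ e ∈ k, s e) (JM W TT fm co Wl La b o ω)
        (fun A => V ω (unc TT fm co La b ω A))‖ ≤
      M * ((1 + θ) ^ 2) ^ (nfr W TT fm co Wl La b o ω).card := by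
    intro ω hω
    refine (norm_cE_le (M := M) fun A _ => hM ω hω _ (filter_subset _ _)).trans ?_
    refine mul_le_mul_of_nonneg_left ?_ hM0
    unfold tv
    have h1 : ∀ k ∈ JM W TT fm co Wl La b o ω, ‖∏ e ∈ k, s e‖ + ‖1 - ∏ e ∈ k, s e‖ ≤
        ((1 + θ) ^ 2) ^ k.card := by
      intro k hk
      unfold JM at hk
      obtain ⟨e, he, rfl⟩ := mem_image.1 hk
      exact tv_nr hθ fun e' he' => hs e' (cls_sub he')
    refine (prod_le_prod (fun k _ => by positivity) h1).trans ?_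
    rw [prod_pow_eq_pow_sum]
    have h2 : (1 : ℝ) ≤ (1 + θ) ^ 2 := one_le_pow₀ (by linarith)
    exact pow_le_pow_right₀ h2 (sum_card_le h)
  refine (Ec_half_norm hb).trans (le_of_eq ?_)
  exact Ex_smul _ _ _ _

/-- **Exponential moment of the number of ties which are not free**, a finite set of families with
several walls -/
theorem nfr_exp : ∃ C : ℝ, 1 ≤ C ∧ ∀ {ι : Type} [DecidableEq ι]
    (X : Pool.Agent.Q1.Env) (W Bb B TT : Finset (ℤ × ℤ)) (fm : ℤ × ℤ → ι) (co : ι → Bool)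
    (Wl La : ι → Finset (ℤ × ℤ)) (b o : ℤ × ℤ → ℤ × ℤ)
    (L J K N : ℕ) (θ : ℝ) (I : Finset ι), (∀ e ∈ TT, fm e ∈ I) → I.card ≤ N → 1 ≤ K →
    Multi X W Bb B TT fm co Wl La b o →
    (∀ i, RunsK W Bb TT (TF TT fm i) (Wl i) (La i) b o (co i) L J K) → 0 ≤ θ →
    C * 4 ^ N * 2 ^ K * θ * cr ((L + 1 : ℕ) : ℝ) ^ 2 ≤ 1 →
    Ex hf B (fun ω => ((1 + θ) ^ 2) ^ (nfr W TT fm co Wl La b o ω).card) ≤
      1 + N * (K * 2 ^ J) := by
  classical
  obtain ⟨C, hC, harm⟩ := fam_expK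
  refine ⟨C, hC, ?_⟩
  intro ι _ X W Bb B TT fm co Wl La b o L J K N θ I hI hN hK h hR hθ hsm
  have hcr1 : 1 ≤ cr ((L + 1 : ℕ) : ℝ) ^ 2 := by
    refine one_le_pow₀ ?_
    unfold cr
    exact Real.one_le_rpow (by exact_mod_cast (by omega : 1 ≤ L + 1)) (by norm_num)
  have h4 : (1 : ℝ) ≤ 4 ^ N := one_le_pow₀ (by norm_num)
  have h2K : (1 : ℝ) ≤ 2 ^ K := one_le_pow₀ (by norm_num)
  have hθ1 : θ ≤ 1 := by
    have h1 : θ ≤ C * 4 ^ N * 2 ^ K * θ * cr ((L + 1 : ℕ) : ℝ) ^ 2 := by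
      have h2 : 1 ≤ C * 4 ^ N := by nlinarith
      have h2' : 1 ≤ C * 4 ^ N * 2 ^ K := by nlinarith
      have h3 : θ ≤ C * 4 ^ N * 2 ^ K * θ := by nlinarith
      nlinarith
    linarith
  have hpt : ∀ ω, ω ⊆ B → ((1 + θ) ^ 2) ^ (nfr W TT fm co Wl La b o ω).card ≤
      1 + ∑ i ∈ I, (1 + 4 ^ N * θ) ^ (nfi W TT fm co Wl La b o i ω).card := by
    intro ω _
    rw [card_nfrF hI, ← prod_pow_eq_pow_sum]
    refine (prod_le_sumF I _ (fun i _ => one_le_pow₀ (one_le_pow₀ (by linarith)))).trans ?_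
    refine add_le_add le_rfl (sum_le_sum fun i _ => ?_)
    rw [← pow_mul, ← pow_mul]
    have e1 : 2 * ((nfi W TT fm co Wl La b o i ω).card * I.card) =
        (2 * I.card) * (nfi W TT fm co Wl La b o i ω).card := by ring
    rw [e1, pow_mul]
    refine pow_le_pow_left₀ (by positivity) ?_ _
    have h6 : (1 + θ) ^ (2 * I.card) ≤ (1 + θ) ^ (2 * N) :=
      pow_le_pow_right₀ (by linarith) (by omega)
    have h5 := pow_near hθ hθ1 (2 * N)
    have e2 : (2 : ℝ) ^ (2 * N) = 4 ^ N := by rw [pow_mul]; norm_num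
    rw [e2] at h5
    nlinarith
  refine (Ex_mono hf_Pb hpt).trans ?_
  rw [Ex_add, Ex_const, Ex_sum]
  have hN' : (I.card : ℝ) ≤ N := by exact_mod_cast hN
  have h7 : ∑ i ∈ I, Ex hf B (fun ω => (1 + 4 ^ N * θ) ^ (nfi W TT fm co Wl La b o i ω).card) ≤
      ∑ _i ∈ I, ((K : ℝ) * 2 ^ J) :=
    sum_le_sum fun i _ => harm X W Bb B TT fm co Wl La b o i L J K (4 ^ N * θ) hK h (hR i)
      (by positivity) (by
        have e3 : C * 2 ^ K * (4 ^ N * θ) = C * 4 ^ N * 2 ^ K * θ := by ring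
        rw [e3]
        exact hsm)
  rw [sum_const, nsmul_eq_mul] at h7
  have h8 : (I.card : ℝ) * ((K : ℝ) * 2 ^ J) ≤ N * ((K : ℝ) * 2 ^ J) :=
    mul_le_mul_of_nonneg_right hN' (by positivity)
  linarith

/-- **Uniform bound for complex weights near one**, abstract functional, a finite set of families with
several walls. -/
theorem tot_bdV : ∃ C : ℝ, 1 ≤ C ∧ ∀ {ι : Type} [DecidableEq ι]
    (X : Pool.Agent.Q1.Env) (W Bb B TT : Finset (ℤ × ℤ)) (fm : ℤ × ℤ → ι) (co : ι → Bool)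
    (Wl La : ι → Finset (ℤ × ℤ)) (b o : ℤ × ℤ → ℤ × ℤ) (s : ℤ × ℤ → ℂ)
    (V : Finset (ℤ × ℤ) → Finset (ℤ × ℤ) → ℂ)
    (L J K N : ℕ) (M θ : ℝ) (I : Finset ι), (∀ e ∈ TT, fm e ∈ I) → I.card ≤ N → 1 ≤ K →
    Multi X W Bb B TT fm co Wl La b o → VTog V W B TT fm co Wl La b o →
    (∀ i, RunsK W Bb TT (TF TT fm i) (Wl i) (La i) b o (co i) L J K) → 0 ≤ θ →
    (∀ ω ⊆ B, ∀ P ⊆ TT, ‖V ω P‖ ≤ M) → (∀ e ∈ TT, Nr θ (s e)) →
    C * 4 ^ N * 2 ^ K * θ * cr ((L + 1 : ℕ) : ℝ) ^ 2 ≤ 1 →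
    ‖TotV V B TT s‖ ≤ M * (1 + N * (K * 2 ^ J)) := by
  obtain ⟨C, hC, hexp⟩ := nfr_exp
  refine ⟨C, hC, ?_⟩
  intro ι _ X W Bb B TT fm co Wl La b o s V L J K N M θ I hI hN hK h hV hR hθ hM hs hsm
  have hM0 : 0 ≤ M := (norm_nonneg _).trans (hM ∅ (empty_subset _) ∅ (empty_subset _))
  exact (tot_leV h hV hθ hM hs).trans (mul_le_mul_of_nonneg_left
    (hexp X W Bb B TT fm co Wl La b o L J K N θ I hI hN hK h hR hθ hsm) hM0)

end Pool.Agent.H95.W
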