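import Mathlib
import Pool.Agent.H95.W.PosK
import Pool.Agent.H31.W.NatZ

set_option autoImplicit false
open Filter Topology Set

/-! # Natural values at the positions of a compact set

`natK` : helper31's `nz_tot` for the windows `C.win n he h8 (crz c0 v.2)`, the functional of the box with the half
row of `v` deleted, at all positions `v` with `v / n ∈ K`, error `(1 / n) ^ (1 + α)`. `s1K` : the same for `nz_s1`. -/

namespace Pool.Agent.H95.W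

open Pool.Agent.Q1 (Ec)
open Pool.Agent.Q1.M4 (lat)
open Pool.Agent.H33.Q1 (lt)
open Pool.Agent.H54.W (CD NE)
open Pool.Agent.H20.W (OmC OmC_open crz)
open Pool.Agent.H72.W.N
open Pool.Agent.H42.Sp (Sd)
open Pool.Agent.H14.W (CrE)
open Pool.Agent.H31.W
open Pool.Agent.H62.W (ET WT Phi ZS)

/-- the geometry of a position -/
structure Gd (C : CD) (n : ℤ) (he : n % 2 = 0) (h8 : 8 ≤ n) (c0 : Bool) (v : ℤ × ℤ) (M : ℤ) : Prop where
  m4 : 400 ≤ M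
  m2 : 2 * M ≤ n
  dp : ∀ p, DpI (C.win n he h8 (crz c0 v.2)) p (M + 4) v.1 v.2

section

variable {C : CD} {n : ℤ} {he : n % 2 = 0} {h8 : 8 ≤ n} {c0 : Bool} {v : ℤ × ℤ} {M : ℤ}

lemma Gd.deepZ (h : Gd C n he h8 c0 v M) : DeepZ (C.win n he h8 (crz c0 v.2)) M v.1 v.2 := by
  intro x y h1 h2 h3 h4
  have k := h.dp false x y (by omega) (by omega) (by omega) (by omega)
  unfold InP at k
  rw [sh_false] at k
  simp only [add_zero] at k
  exact k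

lemma Gd.rlo (h : Gd C n he h8 c0 v M) : M + 4 ≤ v.2 := by
  have m4 := h.m4
  have k := (h.dp false v.1 (v.2 - (M + 4)) (by omega) (by omega) (by omega) (by omega)).1
  omega

lemma Gd.rhi (h : Gd C n he h8 c0 v M) : v.2 + M + 4 < n * C.H := by
  have m4 := h.m4
  have k := (h.dp false v.1 (v.2 + (M + 4)) (by omega) (by omega) (by omega) (by omega)).2.1
  have e : (C.win n he h8 (crz c0 v.2)).h = n * C.H := rfl
  omega

lemma Gd.crE (h : Gd C n he h8 c0 v M) : CrE (C.win n he h8 (crz c0 v.2)) M where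
  lo := by
    intro y h0 h1
    have := h.rlo
    have m4 := h.m4
    change crz c0 v.2 y = crz c0 v.2 0
    unfold crz
    rw [if_pos (by omega), if_pos (by omega)]
  hi := by
    intro y h0 h1
    have := h.rhi
    have m4 := h.m4
    have e : (C.win n he h8 (crz c0 v.2)).h = n * C.H := rfl
    rw [e] at h0
    change crz c0 v.2 y = crz c0 v.2 ((C.win n he h8 (crz c0 v.2)).h - 1)
    rw [e]
    unfold crz
    rw [if_neg (by omega), if_neg (by omega)]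

end

/-- **The geometry of all positions over a compact set.** -/
theorem gd_K (C : CD) (c0 : Bool) {K : Set ℂ} (hK : K ⊆ OmC C) (hKc : IsCompact K) : ∃ δ : ℝ, 0 < δ ∧
    ∃ n0 : ℕ, ∀ n : ℤ, (n0 : ℤ) ≤ n → ∀ (he : n % 2 = 0) (h8 : 8 ≤ n) (v : ℤ × ℤ),
      lat v / ((n : ℝ) : ℂ) ∈ K → Gd C n he h8 c0 v ⌊δ * n⌋ ∧ δ * n / 2 ≤ (⌊δ * n⌋ : ℝ) := by
  obtain ⟨δ, hδ, n0, h⟩ := dp_K C hK hKc
  set δ' : ℝ := min (δ / 2) (1 / 2) with hδ'
  have d0 : 0 < δ' := lt_min (by positivity) (by norm_num)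
  have d1 : δ' ≤ δ / 2 := min_le_left _ _
  have d2 : δ' ≤ 1 / 2 := min_le_right _ _
  obtain ⟨N1, hN1⟩ := exists_nat_gt (401 / δ')
  obtain ⟨N2, hN2⟩ := exists_nat_gt (8 / δ)
  refine ⟨δ', d0, max n0 (max N1 N2), fun n hn he h8 v hv => ?_⟩
  have k0 : (n0 : ℤ) ≤ n := le_trans (by exact_mod_cast le_max_left _ _) hn
  have k1 : ((N1 : ℤ) : ℝ) ≤ n := by
    exact_mod_cast le_trans (by exact_mod_cast (le_max_left _ _).trans (le_max_right _ _)) hn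
  have k2 : ((N2 : ℤ) : ℝ) ≤ n := by
    exact_mod_cast le_trans (by exact_mod_cast (le_max_right _ _).trans (le_max_right _ _)) hn
  have e1 : ((N1 : ℤ) : ℝ) = (N1 : ℝ) := by simp
  have e2 : ((N2 : ℤ) : ℝ) = (N2 : ℝ) := by simp
  rw [e1] at k1
  rw [e2] at k2
  have hn1 : 401 < δ' * n := by
    have := hN1.trans_le k1
    rw [div_lt_iff₀ d0] at this
    linarith
  have hn2 : 8 < δ * n := by
    have := hN2.trans_le k2
    rw [div_lt_iff₀ hδ] at this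
    linarith
  have hnp : (0 : ℝ) < n := by
    have : (8 : ℝ) ≤ n := by exact_mod_cast h8
    linarith
  have f1 := Int.floor_le (δ' * n)
  have f2 := Int.lt_floor_add_one (δ' * n)
  obtain ⟨-, h⟩ := h n k0
  refine ⟨⟨?_, ?_, fun p => h v hv he h8 _ p _ ?_⟩, by linarith⟩
  · have : (400 : ℝ) < (⌊δ' * n⌋ : ℝ) := by linarith
    have h4 : (400 : ℤ) < ⌊δ' * n⌋ := by exact_mod_cast this
    omega
  · have h1 : 2 * (⌊δ' * n⌋ : ℝ) ≤ n := by nlinarith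
    exact_mod_cast h1
  · push_cast
    nlinarith

/-- from the corner boxes to the size of the window -/
lemma rpow_floor {δ α x : ℝ} {M n : ℤ} (hδ : 0 < δ) (hα : 0 < α) (hx : 0 ≤ x) (hn : (0 : ℝ) < n)
    (hM : δ * n / 2 ≤ (M : ℝ)) : x * ((1 : ℝ) / M) ^ (1 + α) ≤
      x * (2 / δ) ^ (1 + α) * ((1 : ℝ) / n) ^ (1 + α) := by
  rw [mul_assoc, ← Real.mul_rpow (by positivity) (by positivity)]
  refine mul_le_mul_of_nonneg_left ?_ hx
  have h0 : (0 : ℝ) < M := lt_of_lt_of_le (by positivity) hM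
  refine Real.rpow_le_rpow (by positivity) ?_ (by linarith)
  rw [div_mul_div_comm, mul_one, div_le_div_iff₀ h0 (by positivity)]
  linarith

section nat

variable (C : CD) (c0 : Bool) {K : Set ℂ}

/-- **The totals against the natural values**, at all positions over a compact set. -/
theorem natK (hK : K ⊆ OmC C) (hKc : IsCompact K) : ∃ L α : ℝ, 0 ≤ L ∧ 0 < α ∧ ∃ n0 : ℕ,
    ∀ n : ℤ, (n0 : ℤ) ≤ n → ∀ (he : n % 2 = 0) (h8 : 8 ≤ n) (v : ℤ × ℤ), lat v / ((n : ℝ) : ℂ) ∈ K →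
    ∀ X1 X2 Y1 Y2 : ℤ, BoxD (C.win n he h8 (crz c0 v.2)) X1 X2 Y1 Y2 →
    ∀ Ψ : (NE → NE → Prop) → ℂ, (∀ a, ‖Ψ a‖ ≤ 1) →
    ∀ O : OutB (C.win n he h8 (crz c0 v.2)), ONat O (ZS X1 X2 Y1 Y2 v.1 v.2) →
    ∀ (p : Bool) (s : Finset Sd), .R ∉ s → ∀ S : Finset (ℤ × ℤ), S ⊆ FR (C.win n he h8 (crz c0 v.2)) p →
    (∀ x y, lt (x, y) ∈ ZS X1 X2 Y1 Y2 v.1 v.2 → FRt (C.win n he h8 (crz c0 v.2)) p x y →
      x + sh p = n * C.W → 0 ≤ y → y < n * C.H →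
      (lt (x, y) ∈ S ↔ natc (C.win n he h8 (crz c0 v.2)) p x y = true)) →
    ‖Nz (Phi C n c0 v.1 v.2 X1 X2 Y1 Y2 Ψ) (C.win n he h8 (crz c0 v.2)) p s (ZS X1 X2 Y1 Y2 v.1 v.2) -
      Ec (fun _ => (1 / 2 : ℂ)) (ET (C.win n he h8 (crz c0 v.2)) p (Tg (C.win n he h8 (crz c0 v.2)) p s))
        (fun ω => Phi C n c0 v.1 v.2 X1 X2 Y1 Y2 Ψ
          (ω ∪ WT O p (Tg (C.win n he h8 (crz c0 v.2)) p s) S))‖ ≤ L * ((1 : ℝ) / n) ^ (1 + α) := by
  obtain ⟨C0, α, hC0, hα, key⟩ := nz_tot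
  obtain ⟨δ, hδ, n0, hg⟩ := gd_K C c0 hK hKc
  have hH : (0 : ℝ) < C.H := by exact_mod_cast C.H0
  refine ⟨(2 * C.H + 4) * C0 * (2 / δ) ^ (1 + α), α, by positivity, hα, n0, ?_⟩
  intro n hn he h8 v hv X1 X2 Y1 Y2 hB Ψ hΨ O hO p s hs S hS hSR
  obtain ⟨g, hM⟩ := hg n hn he h8 v hv
  have hnp : (0 : ℝ) < n := by
    have : (8 : ℝ) ≤ n := by exact_mod_cast h8
    linarith
  have hc := C.coarseC he h8 (cr := crz c0 v.2)
  refine (key _ n C.H C.W C.A C.CL hc _ g.m4 g.m2 g.crE _ (znD_ZS hc (by have := g.m4; omega) hB g.deepZ) _ 1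
    (funZ_Phi C n c0 zero_le_one hΨ) O hO p s hs S hS hSR).trans ?_
  refine le_trans (le_of_eq ?_) (rpow_floor hδ hα (x := (2 * C.H + 4) * C0) (by positivity) hnp hM)
  ring

/-- **Left walls pushed, right wall pushed**, at all positions over a compact set. -/
theorem s1K (hK : K ⊆ OmC C) (hKc : IsCompact K) : ∃ L α : ℝ, 0 ≤ L ∧ 0 < α ∧ ∃ n0 : ℕ,
    ∀ n : ℤ, (n0 : ℤ) ≤ n → ∀ (he : n % 2 = 0) (h8 : 8 ≤ n) (v : ℤ × ℤ), lat v / ((n : ℝ) : ℂ) ∈ K →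
    ∀ X1 X2 Y1 Y2 : ℤ, BoxD (C.win n he h8 (crz c0 v.2)) X1 X2 Y1 Y2 →
    ∀ Ψ : (NE → NE → Prop) → ℂ, (∀ a, ‖Ψ a‖ ≤ 1) →
    ‖Nz (Phi C n c0 v.1 v.2 X1 X2 Y1 Y2 Ψ) (C.win n he h8 (crz c0 v.2)) false {Sd.L}
        (ZS X1 X2 Y1 Y2 v.1 v.2) -
      Nz (Phi C n c0 v.1 v.2 X1 X2 Y1 Y2 Ψ) (C.win n he h8 (crz c0 v.2)) true {Sd.R}
        (ZS X1 X2 Y1 Y2 v.1 v.2)‖ ≤ L * ((1 : ℝ) / n) ^ (1 + α) := by
  obtain ⟨C0, α, hC0, hα, key⟩ := nz_s1
  obtain ⟨δ, hδ, n0, hg⟩ := gd_K C c0 hK hKc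
  have hH : (0 : ℝ) < C.H := by exact_mod_cast C.H0
  refine ⟨(2 * C.H + 4) * C0 * (2 / δ) ^ (1 + α), α, by positivity, hα, n0, ?_⟩
  intro n hn he h8 v hv X1 X2 Y1 Y2 hB Ψ hΨ
  obtain ⟨g, hM⟩ := hg n hn he h8 v hv
  have hnp : (0 : ℝ) < n := by
    have : (8 : ℝ) ≤ n := by exact_mod_cast h8
    linarith
  have hc := C.coarseC he h8 (cr := crz c0 v.2)
  refine (key _ n C.H C.W C.A C.CL hc _ g.m4 g.m2 g.crE _ (znD_ZS hc (by have := g.m4; omega) hB g.deepZ) _ 1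
    (funZ_Phi C n c0 zero_le_one hΨ)).trans ?_
  refine le_trans (le_of_eq ?_) (rpow_floor hδ hα (x := (2 * C.H + 4) * C0) (by positivity) hnp hM)
  ring

end nat

end Pool.Agent.H95.W
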