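import Mathlib
import Pool.Agent.H60.W.WinC
import Pool.Agent.H54.W.FlatT
import Pool.Agent.H49.W.Brg
import Pool.Agent.H95.W.BrS3

set_option autoImplicit false
open Finset

/-! # Chart I: the groups of the walls

`gS` : the group of a kind: left walls `fo`, right wall `ce`, floors `ri`, ceilings `le`. `gI` : the group of a
wall of the left arc. `kdl e` : the kind of the tie `e`. `wl_kind` : the wall of a tie has its kind. `tot_wS`,
`tot_sz` : the totals with the walls of some groups fair, and with the line weights, as means over the ties. -/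

namespace Pool.Agent.H95.W.SI

open Pool.Agent.Q1 (Ec Ec_congr_q)
open Pool.Agent.H33.Q1 (lt tt tt_lt)
open Pool.Agent.H54.W (Win)
open Pool.Agent.H72.W.N
open Pool.Agent.H42.Sp (Sd Ix kt)
open Pool.Agent.H95.W.N
open Pool.Agent.H95.W.BrS
open Pool.Agent.H15.W (CaseV TotV)
open Pool.Agent.H49.W (toM)
open Pool.Agent.H54.W.N (ek_mem)
open Pool.Agent.Q1.M6e.Wn (DatW wS sz swn)
open Pool.Agent.H44.W
open G4

/-- the group of a kind -/
def gS : Sd → G4
  | .L => fo
  | .R => ce
  | .F => ri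
  | .C => le

lemma gS_inj : Function.Injective gS := by
  intro a b h
  cases a <;> cases b <;> simp_all [gS]

lemma gS_ne {k : Sd} (h : k ≠ .R) : gS k ∈ arc4 false := by
  cases k
  · decide
  · exact absurd rfl h
  · decide
  · decide

/-- the kind of a tie -/
noncomputable def kdl (D : Win) (p : Bool) (e : ℤ × ℤ) : Sd := kd D p (tt e).1 (tt e).2

lemma kdl_tie {D : Win} {p : Bool} {s : Sd} {c : Bool} {u v : ℤ} (h : TieP D p s c u v) :
    kdl D p (lt (u, v)) = s := by
  unfold kdl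
  rw [tt_lt]
  exact kd_eq h.ly

lemma kdl_kt {D : Win} {p : Bool} {k : Ix} (h : CA D p k) : kdl D p (lt (kt k)) = k.1 := by
  unfold kdl
  rw [tt_lt]
  exact kd_eq (CA.kt_ly h)

section

variable {D : Win} {n H : ℤ} {A B : ℤ → ℤ} {CL : ℤ → Bool} {p : Bool}

/-- the group of a wall of the left arc -/
noncomputable def gI (w : KL H A B) : G4 := gS w.1.1

/-- **the wall of a tie has its kind** -/
theorem wl_kind (C : CoarseC D n H A B CL) (hcut : colp D (2 - 1) ≠ colp D 2)
    (nR : ∀ k, CA D p k → k.1 ≠ Sd.R) (w0 : KL H A B) {e : ℤ × ℤ} (he : e ∈ TA D p) :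
    (wlD D n H A B p w0 e).1.1 = kdl D p e := by
  obtain ⟨u, v, s, c, rfl, h⟩ := exists_tie he
  have h1 := ek_mem C hcut nR h
  unfold wlD
  rw [dif_pos h1]
  rfl

end

/-- the total depends on the weights of the ties -/
lemma TotV_congr {V : Finset (ℤ × ℤ) → Finset (ℤ × ℤ) → ℂ} {B TT : Finset (ℤ × ℤ)} {s s' : ℤ × ℤ → ℂ}
    (h : ∀ e ∈ TT, s e = s' e) : TotV V B TT s = TotV V B TT s' := by
  unfold TotV
  congr 1
  funext ω
  exact Ec_congr_q (fun e he => by rw [h e he]) _

/-- the wall of a tie in the total -/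
def wlM (x : CaseV) (gr : x.κ → G4) (e : ℤ × ℤ) : (toM x gr).κ := x.d.wl e

lemma toM_T (x : CaseV) (gr : x.κ → G4) (f : (toM x gr).κ → ℂ) :
    (toM x gr).T f = TotV x.V x.d.B x.d.TT fun e => f (wlM x gr e) := rfl

lemma gr_wlM (x : CaseV) (gr : x.κ → G4) (e : ℤ × ℤ) : (toM x gr).gr (wlM x gr e) = gr (x.d.wl e) := rfl

section tot

variable {x : CaseV} {D : Win} {p : Bool} {gr : x.κ → G4}
  (hT : x.d.TT = TA D p) (hg : ∀ e ∈ TA D p, gr (x.d.wl e) = gS (kdl D p e))

include hT hg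

/-- **natural totals** -/
theorem tot_wS (s : Finset G4) : (toM x gr).T (wS ((toM x gr).ws s)) =
    TotV x.V x.d.B (TA D p) (fun e => if gS (kdl D p e) ∈ s then 1 / 4 else 0) := by
  rw [toM_T, hT]
  refine TotV_congr fun e he => ?_
  have h1 : wlM x gr e ∈ (toM x gr).ws s ↔ gS (kdl D p e) ∈ s := by
    rw [ModG.mem_ws, gr_wlM, hg e he]
  unfold wS
  by_cases h2 : gS (kdl D p e) ∈ s
  · rw [if_pos (h1.2 h2), if_pos h2]
  · rw [if_neg (fun h => h2 (h1.1 h)), if_neg h2]

/-- **totals with the line weights** -/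
theorem tot_sz (hd : G4 → ℂ) (n : ℕ) (hA : ∀ e ∈ TA D p, kdl D p e ≠ .R) :
    (toM x gr).T (sz ((toM x gr).ws (arc4 false)) n fun w => hd ((toM x gr).gr w)) =
      TotV x.V x.d.B (TA D p) (fun e => swn n (hd (gS (kdl D p e)))) := by
  rw [toM_T, hT]
  refine TotV_congr fun e he => ?_
  have h2 : (toM x gr).gr (wlM x gr e) = gS (kdl D p e) := by rw [gr_wlM, hg e he]
  have h1 : wlM x gr e ∈ (toM x gr).ws (arc4 false) := by
    rw [ModG.mem_ws, h2]
    exact gS_ne (hA e he)
  unfold sz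
  rw [if_pos h1]
  change swn n (hd ((toM x gr).gr (wlM x gr e))) = _
  rw [h2]

end tot

end Pool.Agent.H95.W.SI
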