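import Mathlib
import Pool.Agent.H95.W.SeqB
import Pool.Agent.H34.W.TieT
import Pool.Agent.H31.W.NatZ

set_option autoImplicit false
open Finset

/-! # Chart I: natural totals

`CsI x D p Φ O S B fm co` : the case `x` has the functional `FTr Φ O p (Tlf D p) S` of helper34 and the ties of the
reference window. `natI` : the total with the walls of the groups of `s` fair is the mean over the window with the
ties of `s` fair, everything else natural, frozen tiles `S`. -/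

namespace Pool.Agent.H95.W.SI

open Pool.Agent.Q1 (Ec)
open Pool.Agent.H33.Q1 (lt tt tt_lt)
open Pool.Agent.H54.W (Win)
open Pool.Agent.H72.W.N
open Pool.Agent.H42.Sp (Sd Ix kt)
open Pool.Agent.H13.R45 (ev gp)
open Pool.Agent.H95.W.BrS
open Pool.Agent.H15.W (CaseV TotV)
open Pool.Agent.H49.W (toM Leaf)
open Pool.Agent.H42.W (VF)
open Pool.Agent.H62.W (ET WT)
open Pool.Agent.H31.W (Tg mem_Tg)
open Pool.Agent.H34.W.Lin
open Pool.Agent.Q1.M6e.Wn (DatW wS sz swn)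
open Pool.Agent.H44.W
open G4

/-- **The case of chart I**: `D` the true window, `S` the frozen tiles. -/
structure CsI (x : CaseV) (gr : x.κ → G4) (D : Win) (p : Bool) (Φ : Finset (ℤ × ℤ) → ℂ) (O : OutB D)
    (S : Finset (ℤ × ℤ)) : Prop where
  tt : x.d.TT = TA (refD D p) p
  v : x.V = VF (FTr Φ O p (Tlf D p) S) (EN D p) x.d.B (TTr (Tlf D p)) x.d.fm x.d.co
  bB : x.d.B ⊆ EN D p
  hco : ∀ k ∈ Tlf D p, x.d.co (x.d.fm (lt (kt k))) = !ev k.2
  wall : ∀ e ∈ TA (refD D p) p, gr (x.d.wl e) = gS (kdl (refD D p) p e)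

section

variable {x : CaseV} {gr : x.κ → G4} {D : Win} {p : Bool} {Φ : Finset (ℤ × ℤ) → ℂ} {O : OutB D}
  {S : Finset (ℤ × ℤ)}

lemma kdl_Tlf {k : Ix} (h : k ∈ Tlf D p) : kdl (refD D p) p (lt (kt k)) = k.1 :=
  kdl_kt (mem_Tlf_ref.1 h)

lemma kdl_ref {e : ℤ × ℤ} (he : e ∈ TA (refD D p) p) : kdl (refD D p) p e ≠ .R := by
  rw [← TTr_Tlf, mem_TTr] at he
  obtain ⟨k, hk, rfl⟩ := he
  rw [kdl_Tlf hk]
  exact (mem_Tlf.1 hk).2

/-- **Natural totals of chart I.** -/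
theorem CsI.nat (h : CsI x gr D p Φ O S) (hS : S ⊆ FR D p)
    (hF : ∀ k ∈ Tlf D p, Leaf Φ (ev k.2) (gp k.2)) {s : Finset G4} (hs : s ⊆ arc4 false)
    {s' : Finset Sd} (hs' : ∀ k, k ∈ s' ↔ gS k ∈ s) :
    (toM x gr).T (wS ((toM x gr).ws s)) =
      Ec (fun _ => (1 / 2 : ℂ)) (ET D p (Tg D p s')) (fun ω => Φ (ω ∪ WT O p (Tg D p s') S)) := by
  have hR : ∀ k ∈ s', k ≠ Sd.R := by
    rintro k hk rfl
    have h1 := hs ((hs' _).1 hk)
    revert h1
    decide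
  rw [tot_wS h.tt h.wall, h.v, ← TTr_Tlf]
  refine totNT Tlf_CA (fun k hk => ?_) hS h.bB h.hco hF (fun k hk => ?_) (fun k hk hn => ?_)
  · obtain ⟨h1, h2⟩ := mem_Tg.1 hk
    exact mem_Tlf.2 ⟨h1, hR _ h2⟩
  · obtain ⟨h1, h2⟩ := mem_Tg.1 hk
    rw [kdl_Tlf (mem_Tlf.2 ⟨h1, hR _ h2⟩), if_pos ((hs' _).1 h2)]
  · rw [kdl_Tlf hk, if_neg]
    intro h2
    exact hn (mem_Tg.2 ⟨(mem_Tlf.1 hk).1, (hs' _).2 h2⟩)

/-- **Totals of chart I with the line weights.** -/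
theorem CsI.lin (h : CsI x gr D p Φ O S) (hd : G4 → ℂ) (n : ℕ) :
    (toM x gr).T (sz ((toM x gr).ws (arc4 false)) n fun w => hd ((toM x gr).gr w)) =
      TotV (VF (FTr Φ O p (Tlf D p) S) (EN D p) x.d.B (TTr (Tlf D p)) x.d.fm x.d.co) x.d.B
        (TTr (Tlf D p)) (fun e => swn n (hd (gS (kdl (refD D p) p e)))) := by
  rw [tot_sz h.tt h.wall hd n fun e he => kdl_ref he, h.v, ← TTr_Tlf]

end

end Pool.Agent.H95.W.SI
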