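import Mathlib
import Pool.Agent.H34.W.LinG
import Pool.Agent.H22.W.MskI

set_option autoImplicit false
open Finset

/-! # Chart I: frozen tiles of the reference, far labels, leaves

`exists_outB` : an outside with given far labels. `SrI D p S` : the frozen tiles of the reference with the states
`S` off the right column and a solid column. `frz` : the frozen tiles of helper34 are natural off the line.
`refRC` : the reference is coarse. `leafI` : dangling labels at the ties of the left arc are not seen. -/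

namespace Pool.Agent.H95.W.SI

open Pool.Agent.H75.Perc hiding ET mem_ET
open Pool.Agent.H75.TwoArm Pool.Agent.H33.Q1 Pool.Agent.H69.Q1
open Pool.Agent.H54.W (Win CD NE)
open Pool.Agent.H54.W.Win
open Pool.Agent.H72.W.N hiding TA mem_TA TB mem_TB
open Pool.Agent.H42.Sp (Sd Ix kt rt kt_Tg rt_Tg)
open Pool.Agent.H13.R45 (ev gp Tg)
open Pool.Agent.H74.R45 (exists_lt)
open Pool.Agent.H95.W (CoarseRC)
open Pool.Agent.H40.W.N (NatS tp)
open Pool.Agent.H34.W.Lin
open Pool.Agent.H62.W (ZS mem_ZS odd_ZS Phi zone_Phi)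
open Pool.Agent.H22.W.MskI (StrFar BoxL ly_left ly_box)
open Pool.Agent.H49.W (Leaf)

variable {D : Win} {p : Bool} {x y : ℤ} {S : Finset (ℤ × ℤ)} {n H W : ℤ} {A : ℤ → ℤ} {CL : ℤ → Bool}

/-! ### Far labels -/

/-- **An outside with given far labels.** -/
theorem exists_outB (D : Win) (Wo : Finset (ℤ × ℤ)) (far : ∀ x y, lt (x, y) ∈ Wo → ¬ InB D x y) :
    ∃ O : OutB D, O.Wo = Wo := by
  classical
  obtain ⟨N, hN0, hN⟩ : ∃ N : ℤ, 0 ≤ N ∧ ∀ e ∈ GB D ∪ Wo, e.2 < 2 * N - 3 := by
    refine ⟨∑ e ∈ GB D ∪ Wo, (|e.2| + 4), sum_nonneg fun e _ => by positivity, fun e he => ?_⟩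
    have h1 : |e.2| + 4 ≤ ∑ e ∈ GB D ∪ Wo, (|e.2| + 4) :=
      single_le_sum (f := fun e : ℤ × ℤ => |e.2| + 4) (fun e _ => by positivity) he
    have h2 := le_abs_self e.2
    have h3 := abs_nonneg e.2
    linarith
  have hn : ∀ e : ℤ × ℤ, 2 * N - 3 ≤ e.2 → e ∉ GB D ∪ Wo := fun e he h => by
    have := hN e h
    omega
  refine ⟨
    { Wo := Wo
      c0 := (0, 2 * (2 * N))
      k0 := 0
      g := (0, 2 * N - 1)
      far := far
      hk := ?_
      hroot := ?_
      hg := ?_
      hlow := ?_ }, rfl⟩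
  · unfold ty
    simp only
    rw [if_pos (by omega), if_pos (by omega)]
    decide
  · unfold plab
    simp only
    rw [if_pos (by omega), if_pos (by omega)]
    exact fun h => hn _ (by simp only; omega) (mem_union_left _ h)
  · have e1 : fi (0, 2 * (2 * N)) = (0, 2 * N) := by
      unfold fi
      refine Prod.ext ?_ ?_ <;> simp only <;> omega
    rw [e1]
    refine ⟨{(-1, 2 * (2 * N) - 2)}, Relation.ReflTransGen.single ⟨?_, ?_⟩⟩
    · unfold IsUnit4
      simp only [Prod.ext_iff, Prod.fst_sub, Prod.snd_sub]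
      omega
    · refine Pool.Agent.H39.Q1.mem_du_of (a := (0, 2 * N)) (b := (0, 2 * N - 1)) ?_ ?_
      · rw [mem_singleton]
        refine Prod.ext ?_ ?_
        · simp
        · simp only [Prod.snd_sub, Prod.snd_add]; ring
      · have e2 : ((0, 2 * N) + (0, 2 * N - 1) - (1, 1) : ℤ × ℤ) = (-1, 2 * (2 * N) - 2) := by
          refine Prod.ext ?_ ?_
          · simp
          · simp only [Prod.snd_sub, Prod.snd_add]; ring
        rw [e2]
        exact hn _ (by simp only; omega)
  · intro v hv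
    have e1 : vx (0, 2 * (2 * N)) = (0, 2 * N) := by
      unfold vx
      refine Prod.ext ?_ ?_ <;> simp only <;> omega
    rw [e1] at hv
    have key : ∀ v, Co (GB D ∪ Wo) (0, 2 * N) v → v = (0, 2 * N) := by
      intro v hv
      induction hv with
      | refl => rfl
      | @tail a b _ hab ih =>
        exfalso
        subst ih
        obtain ⟨h1, h2⟩ := hab
        refine hn ((0, 2 * N) + b) ?_ h2
        unfold IsUnit4 at h1
        simp only [Prod.ext_iff, Prod.fst_sub, Prod.snd_sub] at h1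
        simp only [Prod.snd_add]
        omega
    rw [key v hv]
    simp only
    omega

/-! ### The reference -/

/-- the reference is coarse -/
theorem refRC (h : CoarseRC D n H W A CL) : CoarseRC (refD D p) n H W A CL where
  hn := h.hn
  HH := h.HH
  hh := h.hh
  ww := h.ww
  AW := h.AW
  a := h.a
  cl := h.cl

/-- tiles of the right column -/
def OnC (D : Win) (p : Bool) (x y : ℤ) : Prop := x + sh p = D.w ∧ 0 ≤ y ∧ y < D.h

instance : Decidable (OnC D p x y) := by unfold OnC; infer_instance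

open Classical in
/-- **frozen tiles of the reference**, states `S` off the right column, solid right column -/
noncomputable def SrI (D : Win) (p : Bool) (S : Finset (ℤ × ℤ)) : Finset (ℤ × ℤ) :=
  (FR (refD D p) p).filter fun e => if OnC D p (tt e).1 (tt e).2
    then (if 2 * (tt e).2 < D.h then D.cb = false else D.ct = false) else e ∈ S

lemma mem_SrI : lt (x, y) ∈ SrI D p S ↔ FRt (refD D p) p x y ∧ (if OnC D p x y
    then (if 2 * y < D.h then D.cb = false else D.ct = false) else lt (x, y) ∈ S) := by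
  classical
  unfold SrI
  rw [mem_filter, mem_FR, tt_lt]

lemma SrI_sub : SrI D p S ⊆ FR (refD D p) p := by
  classical
  exact filter_subset _ _

/-- the column is solid -/
lemma solI : SolR D p (SrI D p S) := by
  intro y h0 h1
  have h2 : OnC D p (D.w - sh p) y := ⟨by ring, h0, h1⟩
  rw [mem_SrI, if_pos h2]
  exact ⟨fun h => h.2, fun h => ⟨FRt_col h0 h1, h⟩⟩

/-- the states off the column -/
lemma ssI (hS : S ⊆ FR D p) (x y : ℤ) (h : x + sh p < D.w ∨ y < 0 ∨ D.h ≤ y) :
    lt (x, y) ∈ SrI D p S ↔ lt (x, y) ∈ S := by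
  have h2 : ¬ OnC D p x y := by unfold OnC; omega
  rw [mem_SrI, if_neg h2, FRt_ref h]
  exact ⟨fun h => h.2, fun h3 => ⟨mem_FR.1 (hS h3), h3⟩⟩

/-- tiles near the window are in its box -/
lemma ring_InZ (h : Ring D p x y) : D.InZ x y := by
  obtain ⟨⟨Z, h1, h2, h3, h4, h5, h6⟩, -⟩ := h
  have e1 := D.hlo Z h3 h4
  have e2 := sh_nonneg p
  have e3 := sh_le p
  unfold Win.InZ
  omega

/-- **The frozen tiles of helper34 off the line are natural.** -/
theorem frz_InO (O : OutB D) (hS : S ⊆ ZF D) (hF : FRt D false x y) (hE : ¬ D.InE D.a x y) :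
    lt (x, y) ∈ frz O S ↔ D.InO D.a x y := by
  have hZ := ring_InZ hF.1
  unfold frz Win.WJ
  rw [mem_inter, mem_FR, mem_union, mem_union, Win.mem_WR, OutB.out_Wo, mem_union, mem_FB]
  constructor
  · rintro ⟨-, h | h | h | h⟩
    · exact absurd (mem_ZF.1 (hS h)).2 hE
    · exact h
    · exact absurd hZ h.2.1
    · exact absurd hF.1.inB (O.far x y h)
  · exact fun h => ⟨hF, Or.inr (Or.inl h)⟩

/-- **`NatS` of the reference.** -/
theorem natSI (O : OutB D) (hS : S ⊆ ZF D) : NatS (refD D false) false (SrI D false (frz O S)) := by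
  intro x y h1 h2 h3
  rw [ssI (frz_sub O S) x y h1]
  have hF : FRt D false x y := (FRt_ref (D := D) h1).1 h2
  have e : tp (refD D false) false = D.a := rfl
  rw [e] at h3 ⊢
  have h3' : ¬ D.InE D.a x y := h3
  rw [frz_InO O hS hF h3']
  have hf : D.fill x y = (refD D false).fill x y ∨ D.InE D.a x y := by
    by_cases hy : y < 0
    · left; unfold Win.fill; rw [if_pos hy, if_pos hy]; rfl
    by_cases hy2 : D.h ≤ y
    · left; unfold Win.fill
      rw [if_neg hy, if_pos hy2, if_neg hy, if_pos (show (refD D false).h ≤ y from hy2)]; rfl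
    by_cases hx : x < D.a y
    · left; unfold Win.fill
      rw [if_neg hy, if_neg hy2, if_pos hx, if_neg hy,
        if_neg (show ¬ (refD D false).h ≤ y from hy2), if_pos (show x < (refD D false).a y from hx)]; rfl
    · right
      refine inE_P (inPF.2 ⟨by omega, by omega, by omega, ?_⟩)
      rw [sh_false] at h1
      simp only [ref_w, ref_h] at h1
      omega
  rcases hf with hf | hf
  · unfold Win.InO
    rw [hf]
    exact Iff.rfl
  · exact absurd hf h3'

/-- **the column of the world `false` is natural** -/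
theorem frz_col (O : OutB D) (hS : S ⊆ ZF D) (hF : FRt D false x y) (hx : x + sh false = D.w) (h0 : 0 ≤ y)
    (h1 : y < D.h) : lt (x, y) ∈ frz O S ↔ natc D false x y = true := by
  rw [sh_false, add_zero] at hx
  have aw := D.aw y h0 h1
  have hE : ¬ D.InE D.a x y := fun h => by
    have := h.z (posA D)
    omega
  rw [frz_InO O hS hF hE]
  unfold Win.InO
  have hA : ¬ D.TA D.a x y := fun h => by
    rcases h with ⟨k1, k2, k3, k4⟩ | ⟨k1, k2⟩
    · have := D.aw (y - 1) (by omega) (by omega); omega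
    · omega
  have hB : ¬ D.TB D.a x y := fun h => by
    rcases h with ⟨k1, k2, k3, k4⟩ | ⟨k1, k2⟩
    · have := D.aw (y + 1) (by omega) (by omega); omega
    · omega
  have hn : natc D false x y = D.fill x y := rfl
  rw [hn]
  have hZ := ring_InZ hF.1
  tauto

/-! ### Ties -/

/-- the colour of a tie -/
lemma hcoI {k : Ix} (hk : k ∈ Tlf D p) {s0 : ℤ} :
    colp (refD D p) (fmA (refD D p) p s0 (lt (kt k))) = !ev k.2 := by
  have h1 := mem_Tlf_ref.1 hk
  have h2 : lt (kt k) ∈ Pool.Agent.H72.W.N.TA (refD D p) p := by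
    rw [← TTr_Tlf]; exact kt_TTr hk
  obtain ⟨u, v, s, c, e, h⟩ := exists_tie h2
  rw [e, h.co, ← h.col]
  have e2 := lt_inj e
  have e3 := Pool.Agent.H62.W.CA.natc_kt h1
  rw [e2] at e3
  exact e3

/-- the ties of the left arc are in the zone, with the tiles next to them -/
lemma tie_zone {K X1 X2 Y1 Y2 x0 r L : ℤ} (hF : StrFar D K x0 r) (hK : 2 ≤ K) (hB : BoxL D L X1 X2 Y1 Y2)
    (hL : 5 ≤ L) {k : Ix} (hk : k ∈ Tlf D p) {X Y : ℤ} (h : OnT k.2 X Y) :
    lt (X, Y) ∈ ZS X1 X2 Y1 Y2 x0 r := by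
  obtain ⟨hc, hR⟩ := mem_Tlf.1 hk
  have hl := CA.kt_ly hc
  have h1 := ly_left hl hR
  have h2 := ly_box hl
  have h3 : OnT k.2 (kt k).1 (kt k).2 := by
    have h4 := Pool.Agent.H13.R45.tg_lt (u := (kt k).1) (v := (kt k).2) (kt_Tg k)
    unfold OnT
    omega
  obtain ⟨b1, b2, b3, b4⟩ := hB
  obtain ⟨f1, f2, f3⟩ := hF
  have e1 := sh_nonneg p
  unfold OnT at h h3
  rw [mem_ZS]
  refine ⟨by omega, ?_⟩
  rintro ⟨h5, h6⟩
  rcases h1 with ⟨h7, -⟩ | ⟨h7, -⟩ | ⟨h7, h8, h9⟩
  · omega
  · omega
  · have := f3 (kt k).2 h7 h8 (by omega) (by omega)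
    omega

end Pool.Agent.H95.W.SI
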