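import Mathlib
import Pool.Agent.H95.W.SeqD
import Pool.Agent.H20.W.TopS
import Pool.Agent.Q1.M6e.Comb
import Pool.Agent.H95.W.SeqC
import Pool.Agent.H34.W.LinT

set_option autoImplicit false
open Finset

/-! # Chart I: the line value

`slw` : the weights of the ties are the weights at the headings. `vS_line` : **the line value of the world
`false`** is the mean over the real frozen tiles of the totals of the tied functional. -/

namespace Pool.Agent.H95.W.SI

open Pool.Agent.Q1 (Ec Ec_congr)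
open Pool.Agent.H75.Perc (IsUnit4)
open Pool.Agent.H33.Q1 (lt tt tt_lt lt_odd)
open Pool.Agent.H54.W (Win CD NE)
open Pool.Agent.H54.W.Win
open Pool.Agent.H72.W.N hiding TA mem_TA TB mem_TB
open Pool.Agent.H42.Sp (Sd Ix kt rt)
open Pool.Agent.H13.R45 (ev gp)
open Pool.Agent.H74.R45 (exists_lt)
open Pool.Agent.H34.W.Lin
open Pool.Agent.H34.W (opw)
open Pool.Agent.H62.W (ZS mem_ZS odd_ZS ZoneG PhiG)
open Pool.Agent.H22.W.MskI (StrFar BoxL)
open Pool.Agent.H49.W (Leaf)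
open Pool.Agent.H93.W (Fs mem_Fs rcol)
open Pool.Agent.H42.W (VF)
open Pool.Agent.H15.W (TotV)
open Pool.Agent.H64.Q1 (wa)
open Pool.Agent.H25.Q1.Close (sw)
open Pool.Agent.H32.W.Ab (uN)
open Pool.Agent.H20.W
open Pool.Agent.H95.W.BrS (hd4)
open Pool.Agent.Q1.M6e (one_sub_wa' sw_wa norm_wa norm_one_sub_wa)
open Pool.Agent.Q1.M6e.Wn (swn)
open Pool.Agent.H44.W
open G4

/-! ### The weights -/

lemma uN_re (N : ℕ) : (uN N).re = Real.pi / 2 := by
  unfold uN
  have h3 : ((Real.pi : ℂ) / 2).re = Real.pi / 2 := by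
    rw [Complex.div_ofNat_re]; simp
  rw [Complex.add_re, h3, Complex.mul_re, Complex.I_re, Complex.I_im, Complex.ofReal_re, Complex.ofReal_im]
  ring

/-- reflection of the rapidity -/
lemma wa_refl {z : ℂ} (h1 : 0 ≤ z.re) (h2 : z.re ≤ Real.pi) : 1 - wa (Real.pi - z) = wa z := by
  have e0 : ((Real.pi : ℂ) - z).re = Real.pi - z.re := by simp
  rw [one_sub_wa' (by rw [e0]; linarith) (by rw [e0]; linarith)]
  unfold Pool.Agent.H25.Q1.Close.aw wa
  have e1 : (Real.pi : ℂ) - (Real.pi - z) = z := by ring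
  have e2 : ((Real.pi : ℂ) - z + Real.pi) / 3 = Real.pi - (z + Real.pi) / 3 := by ring
  rw [e1, e2, Complex.sin_pi_sub]

lemma wa_refl' {z : ℂ} (h1 : 0 ≤ z.re) (h2 : z.re ≤ Real.pi) :
    wa (Real.pi - z) * (1 - wa (Real.pi - z)) = sw z := by
  rw [← sw_wa h1 h2, ← wa_refl h1 h2]
  ring

section wts

variable (N : ℕ)

lemma rb : (Real.pi : ℂ) - uN N + Real.pi / 2 = Real.pi - (uN N - Real.pi / 2) := by ring
lemma rc : (Real.pi : ℂ) - uN N - Real.pi / 2 = Real.pi - (uN N + Real.pi / 2) := by ring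

lemma re_m : (uN N - (Real.pi : ℂ) / 2).re = 0 := by
  rw [Complex.sub_re, uN_re]
  simp

lemma re_p : (uN N + (Real.pi : ℂ) / 2).re = Real.pi := by
  rw [Complex.add_re, uN_re]
  simp

/-- **The weights of the ties** -/
theorem slw {k : Sd} (hk : k ≠ .R) : slI (wa (Real.pi - uN N)) (wa (Real.pi - uN N + Real.pi / 2))
    (wa (Real.pi - uN N - Real.pi / 2)) k = swn N (hd4 (gS k)) := by
  have hp := Real.pi_pos
  cases k
  · have h := wa_refl' (z := uN N) (by rw [uN_re]; linarith) (by rw [uN_re]; linarith)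
    change wa (Real.pi - uN N) * (1 - wa (Real.pi - uN N)) =
      sw ((((Real.pi / 2 : ℝ)) : ℂ) + ((Real.log N : ℝ) : ℂ) * Complex.I)
    rw [h]
    congr 1
    unfold uN
    push_cast
    ring
  · exact absurd rfl hk
  · have h := wa_refl' (z := uN N - Real.pi / 2) (by rw [re_m]) (by rw [re_m]; linarith)
    rw [← rb] at h
    change wa (Real.pi - uN N + Real.pi / 2) * (1 - wa (Real.pi - uN N + Real.pi / 2)) =
      sw (0 + ((Real.log N : ℝ) : ℂ) * Complex.I)
    rw [h]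
    congr 1
    unfold uN
    push_cast
    ring
  · have h := wa_refl' (z := uN N + Real.pi / 2) (by rw [re_p]; linarith) (by rw [re_p])
    rw [← rc] at h
    change wa (Real.pi - uN N - Real.pi / 2) * (1 - wa (Real.pi - uN N - Real.pi / 2)) =
      sw (((Real.pi : ℝ) : ℂ) + ((Real.log N : ℝ) : ℂ) * Complex.I)
    rw [h]
    congr 1
    unfold uN
    push_cast
    ring

/-- the weights of the line are bounded -/
theorem qJ_le {D : Win} {τ : ℤ → ℤ} (e : ℤ × ℤ) :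
    ‖D.qJ τ (wa (Real.pi - uN N)) (wa (Real.pi - uN N + Real.pi / 2)) (wa (Real.pi - uN N - Real.pi / 2)) e‖ ≤ 2 ∧
    ‖1 - D.qJ τ (wa (Real.pi - uN N)) (wa (Real.pi - uN N + Real.pi / 2))
      (wa (Real.pi - uN N - Real.pi / 2)) e‖ ≤ 2 := by
  have hp := Real.pi_pos
  have e1 : ((Real.pi : ℂ) - uN N).re = Real.pi / 2 := by
    rw [Complex.sub_re, uN_re, Complex.ofReal_re]; ring
  have e2 : ((Real.pi : ℂ) - uN N + Real.pi / 2).re = Real.pi := by
    rw [rb, Complex.sub_re, re_m, Complex.ofReal_re]; ring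
  have e3 : ((Real.pi : ℂ) - uN N - Real.pi / 2).re = 0 := by
    rw [rc, Complex.sub_re, re_p, Complex.ofReal_re]; ring
  exact qJ_B2 (norm_wa (by rw [e1]; linarith) (by rw [e1]; linarith))
    (norm_one_sub_wa (by rw [e1]; linarith) (by rw [e1]; linarith))
    (norm_wa (by rw [e2]; linarith) (by rw [e2]))
    (norm_wa (by rw [e3]) (by rw [e3]; linarith))
    (norm_one_sub_wa (by rw [e3]) (by rw [e3]; linarith)) e

end wts

/-! ### The functional -/

section line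

variable {D : Win} {P : Finset (ℤ × ℤ) → ℂ} {X1 X2 Y1 Y2 x0 r x y : ℤ} {O : OutB D}

/-- the functional sees only the zone -/
def LocZ (P : Finset (ℤ × ℤ) → ℂ) (X1 X2 Y1 Y2 x0 r : ℤ) : Prop :=
  ∀ w, P (w ∩ ZS X1 X2 Y1 Y2 x0 r) = P w

lemma LocZ.congr (hP : LocZ P X1 X2 Y1 Y2 x0 r) {w w' : Finset (ℤ × ℤ)}
    (h : ∀ x y, lt (x, y) ∈ ZS X1 X2 Y1 Y2 x0 r → (lt (x, y) ∈ w ↔ lt (x, y) ∈ w')) : P w = P w' := by
  rw [← hP w, ← hP w']
  congr 1
  ext e
  rw [mem_inter, mem_inter]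
  constructor
  · rintro ⟨h1, h2⟩
    obtain ⟨x, y, rfl⟩ := exists_lt (odd_ZS h2)
    exact ⟨(h x y h2).1 h1, h2⟩
  · rintro ⟨h1, h2⟩
    obtain ⟨x, y, rfl⟩ := exists_lt (odd_ZS h2)
    exact ⟨(h x y h2).2 h1, h2⟩

open Classical in
/-- the far natural labels of the zone -/
noncomputable def Wf (D : Win) (Z : Finset (ℤ × ℤ)) : Finset (ℤ × ℤ) :=
  Z.filter fun e => ¬ InB D (tt e).1 (tt e).2 ∧ D.fill (tt e).1 (tt e).2 = true

lemma mem_Wf {Z : Finset (ℤ × ℤ)} : lt (x, y) ∈ Wf D Z ↔ lt (x, y) ∈ Z ∧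
    ¬ InB D x y ∧ D.fill x y = true := by
  classical
  unfold Wf
  rw [mem_filter, tt_lt]

lemma mem_Wz {Z : Finset (ℤ × ℤ)} : lt (x, y) ∈ Wz D Z ↔ lt (x, y) ∈ Z ∧
    ¬ D.InZ x y ∧ D.fill x y = true := by
  classical
  unfold Wz
  rw [mem_filter, tt_lt]

lemma inB_of_InZ (h : D.InZ x y) : InB D x y := by
  unfold Win.InZ at h
  unfold InB
  omega

/-- the open labels in the zone -/
lemma wj_zone (hO : O.Wo = Wf D (ZS X1 X2 Y1 Y2 x0 r)) (hw : x0 ≤ D.w)
    (hz : lt (x, y) ∈ ZS X1 X2 Y1 Y2 x0 r) :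
    lt (x, y) ∈ (rcol D r false).WJ D.a (Wz D (ZS X1 X2 Y1 Y2 x0 r)) ↔
    lt (x, y) ∈ D.WJ D.a O.out.Wo := by
  unfold Win.WJ
  rw [mem_union, mem_union, Win.mem_WR, Win.mem_WR, OutB.out_Wo, mem_union, mem_FB, hO, mem_Wf, mem_Wz]
  have hs := (mem_ZS.1 hz).2
  have hI : (rcol D r false).InO D.a x y ↔ D.InO D.a x y := by
    by_cases hE : D.InE D.a x y
    · constructor
      · exact fun h => absurd hE h.2.1
      · exact fun h => absurd hE h.2.1
    have hf : (rcol D r false).fill x y = D.fill x y := by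
      unfold Win.fill
      by_cases h1 : y < 0
      · rw [if_pos h1, if_pos h1]; rfl
      by_cases h2 : D.h ≤ y
      · rw [if_neg h1, if_neg h1, if_pos h2, if_pos (show (rcol D r false).h ≤ y from h2)]; rfl
      by_cases h3 : x < D.a y
      · rw [if_neg h1, if_neg h1, if_neg h2, if_neg (show ¬ (rcol D r false).h ≤ y from h2),
          if_pos h3, if_pos (show x < (rcol D r false).a y from h3)]; rfl
      rw [if_neg h1, if_neg h1, if_neg h2, if_neg (show ¬ (rcol D r false).h ≤ y from h2),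
        if_neg h3, if_neg (show ¬ x < (rcol D r false).a y from h3)]
      have hyr : y ≠ r := by
        intro h4
        refine hE (inE_P (inPF.2 ⟨by omega, by omega, by omega, ?_⟩))
        by_contra h5
        exact hs ⟨h4, by omega⟩
      change (if y = r then false else D.cr y) = D.cr y
      rw [if_neg hyr]
    unfold Win.InO
    rw [hf]
    exact Iff.rfl
  rw [hI]
  have hB : D.InZ x y → InB D x y := inB_of_InZ
  have e2 : fillc D x y = D.fill x y := rfl
  rw [e2]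
  tauto

/-- the string is not seen -/
lemma LocZ.ign (hP : LocZ P X1 X2 Y1 Y2 x0 r) (hw : x0 ≤ D.w) : Ign P (Fs D r x0) := by
  intro G
  refine hP.congr fun x y hz => ?_
  rw [mem_sdiff, mem_Fs hw]
  have hs := (mem_ZS.1 hz).2
  constructor
  · exact fun h => h.1
  · exact fun h => ⟨h, fun h2 => hs ⟨h2.1, h2.2.1⟩⟩

variable {ι : Type} [DecidableEq ι] {B : Finset (ℤ × ℤ)} {fm : ℤ × ℤ → ι} {co : ι → Bool}

lemma opw_qJ (τ : ℤ → ℤ) (a b c : ℂ) : opw (fun q => D.wA τ a b c q.1 q.2) = D.qJ τ a b c := rfl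

/-- **The line value of the world `false`.** -/
theorem VS_line (hP : LocZ P X1 X2 Y1 Y2 x0 r) (hO : O.Wo = Wf D (ZS X1 X2 Y1 Y2 x0 r)) (hw : x0 ≤ D.w)
    (hl : ∀ k ∈ Tlf D false, Leaf P (ev k.2) (gp k.2)) (hB : B ⊆ EN D false)
    (hco : ∀ k ∈ Tlf D false, co (fm (lt (kt k))) = !ev k.2) (N : ℕ) :
    VS D (Wz D (ZS X1 X2 Y1 Y2 x0 r)) P (tauP D false) (wa (Real.pi - uN N))
        (wa (Real.pi - uN N + Real.pi / 2)) (wa (Real.pi - uN N - Real.pi / 2)) r x0 =
      Ec (D.qJ D.a (wa (Real.pi - uN N))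
        (wa (Real.pi - uN N + Real.pi / 2)) (wa (Real.pi - uN N - Real.pi / 2))) (ZF D) (fun S =>
        TotV (VF (FTr P O false (Tlf D false) (frz O S)) (EN D false) B (TTr (Tlf D false)) fm co) B
          (TTr (Tlf D false)) (fun e => swn N (hd4 (gS (kdl (refD D false) false e))))) := by
  have e0 : tauP D false = D.a := rfl
  have e1 : VS D (Wz D (ZS X1 X2 Y1 Y2 x0 r)) P (tauP D false) (wa (Real.pi - uN N))
        (wa (Real.pi - uN N + Real.pi / 2)) (wa (Real.pi - uN N - Real.pi / 2)) r x0 =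
      Ec (D.qJ D.a (wa (Real.pi - uN N))
        (wa (Real.pi - uN N + Real.pi / 2)) (wa (Real.pi - uN N - Real.pi / 2))) (D.EJ D.a \ Fs D r x0)
        (fun ω => P (ω ∪ D.WJ D.a O.out.Wo)) := by
    unfold VS
    rw [e0, opw_qJ]
    refine Ec_congr fun ω _ => hP.congr fun x y hz => ?_
    rw [mem_union, mem_union]
    exact or_congr Iff.rfl (wj_zone hO hw hz)
  rw [e1, line_Id (O := O) (hP.ign hw) (fun e _ _ => rfl)]
  exact line_I hB hco hl fun k hk => by
    rw [kdl_Tlf hk]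
    exact (slw N (mem_Tlf.1 hk).2).symm

/-- dangling labels at the ties of the left arc -/
theorem leafI {ι : Type*} {Λ Dd : Set (ℤ × ℤ)} {X : ι → ℤ × ℤ} {Ψ : (ι → ι → Prop) → ℂ}
    (hZ : ZoneG Λ Dd X (ZS X1 X2 Y1 Y2 x0 r)) {K L : ℤ} (hF : StrFar D K x0 r) (hK : 2 ≤ K)
    (hB : BoxL D L X1 X2 Y1 Y2) (hL : 5 ≤ L) {p : Bool} {k : Ix} (hk : k ∈ Tlf D p) :
    Leaf (PhiG Λ Dd X Ψ) (ev k.2) (gp k.2) := by
  have key : ∀ y : ℤ × ℤ, IsUnit4 (y - gp k.2) →
      (if ev k.2 = true then gp k.2 + y else gp k.2 + y - (1, 1)) ∈ ZS X1 X2 Y1 Y2 x0 r := by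
    intro y hy
    have h1 := Pool.Agent.H13.R45.tg_end (g := k.2) (p := y)
      (e := if ev k.2 = true then gp k.2 + y else gp k.2 + y - (1, 1)) rfl hy (by split_ifs <;> rfl)
    obtain ⟨X, Y, hXY⟩ : ∃ X Y, (if ev k.2 = true then gp k.2 + y else gp k.2 + y - (1, 1)) = lt (X, Y) := by
      rcases h1 with h | h | h | h <;> exact ⟨_, _, h⟩
    rw [hXY] at h1 ⊢
    have h2 := Pool.Agent.H13.R45.tg_lt h1
    exact tie_zone hF hK hB hL hk (by unfold OnT; omega)
  refine hZ.leaf (fun ho y hy => ?_) fun ho y hy => ?_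
  · have := key y hy
    rwa [if_pos ho] at this
  · have := key y hy
    rw [ho] at this
    rwa [if_neg Bool.false_ne_true] at this

end line

end Pool.Agent.H95.W.SI
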