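import Mathlib
import Pool.Agent.H95.W.SeqE
import Pool.Agent.H49.W.TruG

set_option autoImplicit false
open Finset

/-! # Chart I: the case of a window with frozen tiles

`PosI` : the geometry of a window at the scale `R`. `xI` : the case of the window with the functional `Φ` and the
states `S` of the real frozen tiles. `memI` : it is in the class `PI`, its functional is bounded by one, and it has
the totals of `CsI`. -/

namespace Pool.Agent.H95.W.SI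

open Pool.Agent.Q1 (Ec Ec_congr)
open Pool.Agent.H33.Q1 (lt tt tt_lt lt_odd)
open Pool.Agent.H54.W (Win CD NE)
open Pool.Agent.H72.W.N hiding TA mem_TA TB mem_TB
open Pool.Agent.H42.Sp (Sd Ix kt rt)
open Pool.Agent.H13.R45 (ev gp)
open Pool.Agent.H74.R45 (exists_lt)
open Pool.Agent.H34.W.Lin
open Pool.Agent.H62.W (ZS mem_ZS odd_ZS)
open Pool.Agent.H22.W.MskI (StrFar BoxL)
open Pool.Agent.H49.W (toM ClsM)
open Pool.Agent.H49.W.N (TrH TruI SgI vOnI)
open Pool.Agent.H42.W (VF Tog)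
open Pool.Agent.H15.W (CaseV)
open Pool.Agent.H15.W (outR outR_ok outR_Wo)
open Pool.Agent.H95.W (CoarseRC)
open Pool.Agent.H95.W.N
open Pool.Agent.H31.Sp (CQ Ed)
open Pool.Agent.Q1.M6e.Wn (LW mW)
open Pool.Agent.H44.W
open G4

/-- **The geometry of a window at the scale `R`**: half row `r` from `x0`, rectangle, margin `K`. -/
structure PosI (η : ℝ) (R : ℕ) (D : Win) (n H W : ℤ) (A : ℤ → ℤ) (CL : ℤ → Bool)
    (X1 X2 Y1 Y2 x0 r K : ℤ) : Prop where
  co : CoarseRC D n H W A CL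
  n1 : η * R ≤ n
  h2 : (D.h : ℝ) ≤ R / η
  w2 : ((D.w - D.lo : ℤ) : ℝ) ≤ R / η
  tr : TrH D (mW η R)
  hL : 5 ≤ LW η R
  mL : mW η R ≤ LW η R
  hK : 2 * mW η R + 4 ≤ K
  hn : 3 * mW η R + 8 ≤ n
  str : StrFar D K x0 r
  box : BoxL D (LW η R) X1 X2 Y1 Y2
  low : ∀ y, 0 ≤ y → y < D.h → D.lo + mW η R ≤ D.a y

/-- a wall -/
lemma exists_KL {D : Win} {n H W : ℤ} {A : ℤ → ℤ} {CL : ℤ → Bool} (h : CoarseRC D n H W A CL) :
    Nonempty (KL H A (fun _ => W)) := by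
  refine ⟨⟨(Sd.F, A 0, 0), mem_EdL.2 ⟨?_, fun h => Sd.noConfusion h⟩⟩⟩
  have h1 := h.HH
  have h2 := h.AW 0 le_rfl h1
  refine ⟨⟨le_rfl, h1, le_rfl, h2⟩, fun h3 => ?_⟩
  have : (0 : ℤ) ≤ 0 - 1 := h3.1
  omega

/-- the mean of a bounded functional -/
lemma VF_le {ι : Type} [DecidableEq ι] {F : Finset (ℤ × ℤ) → ℂ} (hF : ∀ w, ‖F w‖ ≤ 1)
    {Bb B TT : Finset (ℤ × ℤ)} {fm : ℤ × ℤ → ι} {co : ι → Bool} (ω P : Finset (ℤ × ℤ)) :
    ‖VF F Bb B TT fm co ω P‖ ≤ 1 := by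
  unfold VF
  refine (Pool.Agent.Q1.M6e.Ec_norm_le (C := 1 / 2) (M := 1) (fun _ _ => by norm_num)
    (fun _ _ => by norm_num) (by norm_num) fun w _ => ?_).trans (by norm_num)
  exact hF _

section

variable {η : ℝ} {R : ℕ} {D : Win} {n H W : ℤ} {A : ℤ → ℤ} {CL : ℤ → Bool}
  {X1 X2 Y1 Y2 x0 r K : ℤ} {O : OutB D} {S : Finset (ℤ × ℤ)} {Φ : Finset (ℤ × ℤ) → ℂ}

/-- **The case.** -/
noncomputable def xI (η : ℝ) (R : ℕ) (D : Win) (n H W : ℤ) (A : ℤ → ℤ) (X1 X2 Y1 Y2 : ℤ) (O : OutB D)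
    (S : Finset (ℤ × ℤ)) (Φ : Finset (ℤ × ℤ) → ℂ) (w0 : KL H A (fun _ => W)) : CaseV :=
  caseI (outR (refD D false) (LW η R)) n H W A false 2 (LW η R) (mW η R) (SrI D false (frz O S)) SrI_sub w0
    (VF (FTr Φ O false (Tlf D false) (frz O S)) (EN (refD D false) false)
      (LBA (refD D false) false (mW η R + 1)) (Pool.Agent.H72.W.N.TA (refD D false) false)
      (fmA (refD D false) false 2) (colp (refD D false))) (SgI D false X1 X2 Y1 Y2)

/-- the groups of the walls -/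
noncomputable def grI (η : ℝ) (R : ℕ) (D : Win) (n H W : ℤ) (A : ℤ → ℤ) (X1 X2 Y1 Y2 : ℤ) (O : OutB D)
    (S : Finset (ℤ × ℤ)) (Φ : Finset (ℤ × ℤ) → ℂ) (w0 : KL H A (fun _ => W)) :
    (xI η R D n H W A X1 X2 Y1 Y2 O S Φ w0).κ → G4 := fun w : KL H A (fun _ => W) => gS w.1.1

/-- the hypotheses of helper49 -/
lemma PosI.tru (G : PosI η R D n H W A CL X1 X2 Y1 Y2 x0 r K) (hO : O.Wo = Wf D (ZS X1 X2 Y1 Y2 x0 r))
    (hS : S ⊆ ZF D) : TruI D false (mW η R) (LW η R) K X1 X2 Y1 Y2 x0 r O (frz O S)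
      (SrI D false (frz O S)) where
  tr := G.tr
  hL := G.hL
  hK := by have := G.hK; have := G.tr.hm; omega
  str := G.str
  box := G.box
  sub := frz_sub O S
  subR := SrI_sub
  sol := solI
  ss := ssI (frz_sub O S)
  col := fun x y _ h2 h3 h4 h5 => frz_col O hS h2 h3 h4 h5
  nat := fun x y h1 h2 => by
    rw [hO, mem_Wf]
    exact ⟨fun h => h.2.2, fun h => ⟨h1, h2, h⟩⟩

/-- **The case is in the class.** -/
theorem PosI.mem (G : PosI η R D n H W A CL X1 X2 Y1 Y2 x0 r K)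
    (hO : O.Wo = Wf D (ZS X1 X2 Y1 Y2 x0 r)) (hS : S ⊆ ZF D)
    (hF : ∀ E W : Finset (ℤ × ℤ), Tog E W (ZS X1 X2 Y1 Y2 x0 r) (fun w => Φ (w ∪ W)))
    (w0 : KL H A (fun _ => W)) : PI η R (xI η R D n H W A X1 X2 Y1 Y2 O S Φ w0) := by
  refine ⟨refD D false, outR (refD D false) (LW η R), n, H, W, A, CL, false, 2, SrI D false (frz O S),
    ⟨refRC G.co, G.n1, G.h2, G.w2, outR_ok, cut_ref D.hh, fun q => not_CA_R q, SrI_sub, natSI O hS, solI⟩,
    w0, _, _, ?_, rfl⟩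
  exact vOnI (G.tru hO hS) outR_Wo (refRC G.co) G.hn G.hK G.mL G.low w0 hF

/-- **The functional of the case is bounded.** -/
theorem xI_HV (hΦ : ∀ w, ‖Φ w‖ ≤ 1) (w0 : KL H A (fun _ => W)) :
    (xI η R D n H W A X1 X2 Y1 Y2 O S Φ w0).HV 1 := by
  have hF : ∀ w, ‖FTr Φ O false (Tlf D false) (frz O S) w‖ ≤ 1 := fun w => hΦ _
  intro ω _ P _
  exact VF_le hF (Bb := EN (refD D false) false) (B := LBA (refD D false) false (mW η R + 1))
    (TT := Pool.Agent.H72.W.N.TA (refD D false) false) (fm := fmA (refD D false) false 2)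
    (co := colp (refD D false)) ω P

/-- **The totals of the case.** -/
theorem PosI.csI (G : PosI η R D n H W A CL X1 X2 Y1 Y2 x0 r K) (w0 : KL H A (fun _ => W)) :
    CsI (xI η R D n H W A X1 X2 Y1 Y2 O S Φ w0) (grI η R D n H W A X1 X2 Y1 Y2 O S Φ w0) D false Φ O
      (frz O S) where
  tt := rfl
  v := by
    rw [TTr_Tlf]
    rfl
  bB := by
    intro e he
    obtain ⟨x, y, rfl⟩ := exists_lt (odd_TB he)
    exact mem_EN.2 (mem_LBA.1 he).1
  hco := fun k hk => hcoI hk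
  wall := fun e he => by
    have hnR : ∀ k, CA (refD D false) false k → k.1 ≠ Sd.R := by
      rintro ⟨s, q⟩ hk hs
      simp only at hs
      subst hs
      exact not_CA_R q hk
    have := wl_kind (CoarseC.ofR (refRC (p := false) G.co)) (cut_ref D.hh) hnR w0 he
    change gS (wlD (refD D false) n H A (fun _ => W) false w0 e).1.1 = _
    rw [this]

end

end Pool.Agent.H95.W.SI
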