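import Mathlib
import Pool.Agent.H95.W.SeqF
import Pool.Agent.H95.W.SeqA
import Pool.Agent.H49.W.TruT
import Pool.Agent.H34.W.LinC

set_option autoImplicit false
open Finset

/-! # Chart I: `PtD` of a window

`PosI.ptD` : the line value and the natural values of a window are described by the cases `xI`, one for each state of
the real frozen tiles. `posI_win` : the geometry of the window of a position. `card_win` : number of the real frozen
tiles. -/

namespace Pool.Agent.H95.W.SI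

open Pool.Agent.Q1 (Ec Ec_congr)
open Pool.Agent.H33.Q1 (lt tt tt_lt lt_odd)
open Pool.Agent.H54.W (Win CD NE)
open Pool.Agent.H72.W.N hiding TA mem_TA TB mem_TB
open Pool.Agent.H42.Sp (Sd Ix kt rt)
open Pool.Agent.H13.R45 (ev gp)
open Pool.Agent.H74.R45 (exists_lt)
open Pool.Agent.H34.W.Lin
open Pool.Agent.H62.W (ZS mem_ZS odd_ZS ET WT)
open Pool.Agent.H22.W.MskI (StrFar BoxL)
open Pool.Agent.H49.W (toM ClsM Leaf)
open Pool.Agent.H49.W.N (TrH TruI SgI boxL_win low_win win_row)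
open Pool.Agent.H42.W (VF Tog)
open Pool.Agent.H15.W (CaseV TotV)
open Pool.Agent.H95.W (CoarseRC Gd)
open Pool.Agent.H95.W.N
open Pool.Agent.H95.W.BrS
open Pool.Agent.H31.W (Tg)
open Pool.Agent.H64.Q1 (wa)
open Pool.Agent.H32.W.Ab (uN)
open Pool.Agent.H20.W
open Pool.Agent.H60.W.N (levC lev_C card_levC)
open Pool.Agent.Q1.M6e.Wn (LW mW le_mW le_LW mW_le swn wS sz)
open Pool.Agent.H44.W
open G4

/-- the two names of the groups -/
lemma mem_gSd {s : Finset G4} (k : Sd) : k ∈ s.image gSd ↔ gS k ∈ s := by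
  rw [mem_image]
  constructor
  · rintro ⟨g, hg, rfl⟩
    cases g <;> exact hg
  · intro h
    refine ⟨gS k, h, ?_⟩
    cases k <;> rfl

lemma gSd_R {s : Finset G4} (hs : s ⊆ arc4 false) : Sd.R ∉ s.image gSd := by
  intro h
  have h1 := hs ((mem_gSd _).1 h)
  revert h1
  decide

section

variable {η : ℝ} {R : ℕ} {D : Win} {n H W : ℤ} {A : ℤ → ℤ} {CL : ℤ → Bool}
  {X1 X2 Y1 Y2 x0 r K : ℤ} {O : OutB D} {Φ : Finset (ℤ × ℤ) → ℂ}

/-- **`PtD` of a window.** -/
theorem PosI.ptD (G : PosI η R D n H W A CL X1 X2 Y1 Y2 x0 r K)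
    (hO : O.Wo = Wf D (ZS X1 X2 Y1 Y2 x0 r)) (hw : x0 ≤ D.w) (hP : LocZ Φ X1 X2 Y1 Y2 x0 r)
    (hl : ∀ k ∈ Tlf D false, Leaf Φ (ev k.2) (gp k.2)) {N : Finset G4 → ℂ} {E : ℝ}
    (hN : ∀ S ⊆ ZF D, ∀ s ⊆ arc4 false,
      ‖N s - Ec (fun _ => (1 / 2 : ℂ)) (ET D false (Tg D false (s.image gSd)))
        (fun ω => Φ (ω ∪ WT O false (Tg D false (s.image gSd)) (frz O S)))‖ ≤ E)
    (w0 : KL H A (fun _ => W)) :
    PtD ((2 * 2) ^ (ZF D).card) E (arc4 false) hd4 N
      (fun N => VS D (Wz D (ZS X1 X2 Y1 Y2 x0 r)) Φ (tauP D false) (wa (Real.pi - uN N))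
        (wa (Real.pi - uN N + Real.pi / 2)) (wa (Real.pi - uN N - Real.pi / 2)) r x0)
      (fun S : {S : Finset (ℤ × ℤ) // S ⊆ ZF D} => toM (xI η R D n H W A X1 X2 Y1 Y2 O S.1 Φ w0)
        (grI η R D n H W A X1 X2 Y1 Y2 O S.1 Φ w0)) := by
  refine ptD_Ec (q := fun N => D.qJ D.a (wa (Real.pi - uN N)) (wa (Real.pi - uN N + Real.pi / 2))
    (wa (Real.pi - uN N - Real.pi / 2))) (y := fun S => toM (xI η R D n H W A X1 X2 Y1 Y2 O S Φ w0)
        (grI η R D n H W A X1 X2 Y1 Y2 O S Φ w0)) zero_le_two (fun S hS s hs => ?_)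
    (fun N _ e _ => qJ_le N e) fun N _ => ?_
  · rw [(G.csI (O := O) (S := S) (Φ := Φ) w0).nat (frz_sub O S) hl hs mem_gSd, norm_sub_rev]
    exact hN S hS s hs
  · have h1 := VS_line (D := D) (O := O) hP hO hw hl (B := LBA (refD D false) false (mW η R + 1))
      (fm := fmA (refD D false) false 2) (co := colp (refD D false)) (by
        intro e he
        obtain ⟨x, y, rfl⟩ := exists_lt (odd_TB he)
        exact mem_EN.2 (mem_LBA.1 he).1) (fun k hk => hcoI hk) N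
    rw [h1]
    refine Ec_congr fun S _ => ?_
    exact ((G.csI (O := O) (S := S) (Φ := Φ) w0).lin hd4 N).symm

end

section win

variable {C : CD} {n : ℤ} {he : n % 2 = 0} {h8 : 8 ≤ n} {c0 : Bool} {v : ℤ × ℤ} {M : ℤ}

/-- **The geometry of the window of a position.** -/
theorem posI_win (hC : LowC C) (g : Gd C n he h8 c0 v M) {η : ℝ} {R : ℕ} (hη : 64 ≤ η * R)
    (hηn : η * R ≤ n) (hηM : η * R ≤ 32 * M) (h2 : ((n * C.H : ℤ) : ℝ) ≤ R / η)
    (w2 : ((n * C.W - (n * C.LO - 1) : ℤ) : ℝ) ≤ R / η) :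
    PosI η R (C.win n he h8 (crz c0 v.2)) n C.H C.W C.A C.CL (bX1 C n) (bX2 C n c0 v.2) (bY1 n)
      (bY2 C n) v.1 v.2 (M + 4) := by
  have k1 : 1 ≤ mW η R := le_mW (by push_cast; linarith)
  have k2 : 5 ≤ LW η R := le_LW (by push_cast; linarith)
  have k3 : mW η R ≤ LW η R := by
    refine le_LW ?_
    have := mW_le (η := η) (R := R)
    linarith
  have k4 : 2 * mW η R ≤ M := by
    have h1 := mW_le (η := η) (R := R)
    have h3 : ((2 * mW η R : ℤ) : ℝ) ≤ (M : ℝ) := by push_cast; linarith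
    exact_mod_cast h3
  have k5 : LW η R ≤ n := by
    have h1 := Pool.Agent.Q1.M6e.Wn.LW_le (η := η) (R := R)
    have h3 : ((LW η R : ℤ) : ℝ) ≤ (n : ℝ) := by
      have : (0 : ℝ) ≤ η * R := by linarith
      linarith
    exact_mod_cast h3
  have g1 := g.rlo
  have g2 := g.rhi
  have g3 := g.m2
  have g4 := g.m4
  have gc := g.crE
  have eh : (C.win n he h8 (crz c0 v.2)).h = n * C.H := rfl
  refine ⟨C.coarseC he h8 _, hηn, h2, w2, ⟨k1, by rw [eh]; omega, fun y h0 h1 => gc.lo y h0 (by omega),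
      fun y h0 h1 => gc.hi y (by omega) h1, fun y h0 h1 => ?_⟩, k2, k3, by omega, by omega,
      ⟨g1, by change v.2 + (M + 4) < n * C.H; omega, fun y h0 h1 h2 h3 => ?_⟩, boxL_win k5,
      low_win hC (by omega)⟩
  · rw [eh] at h1
    have hr := win_row (C := C) he h8 h0 h1
    have h2 := C.AW _ hr.1 hr.2
    have h3 : n * (C.A (y / n) + 1) ≤ n * C.W := mul_le_mul_of_nonneg_left (by omega) (by omega)
    rw [mul_add, mul_one] at h3
    change C.wa n y + mW η R + 3 ≤ n * C.W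
    rcases C.wa_cases n y with ⟨-, e⟩ | ⟨-, e⟩ <;> rw [e] <;> omega
  · have h4 := (g.dp false (v.1 - (M + 4)) y (by omega) (by omega) (by omega) (by omega)).2.2.1
    rw [sh_false] at h4
    omega

/-- number of the real frozen tiles -/
theorem card_win {cr : ℤ → Bool} : (ZF (C.win n he h8 cr)).card ≤ 8 * (3 * (C.H.toNat + 1)) + 4 := by
  have hc := C.coarseC he h8 (cr := cr)
  have h1 := card_ZF (lev_C (Coarse.ofR hc.toCoarseR))
  have h2 := card_levC (n := n) (H := C.H) hc.HH.le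
  have h3 : (C.H.toNat : ℤ) = C.H := Int.toNat_of_nonneg hc.HH.le
  omega

end win

end Pool.Agent.H95.W.SI
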