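import Mathlib
import Pool.Agent.H95.W.SeqG
import Pool.Agent.H20.W.TopS

set_option autoImplicit false
open Finset

/-! # Chart I: the line response of the world `false`

`pt_I` : helper20's `PTs` for the class `PI`, every functional bounded by one. `stPT_false` : `StPT PI false`. -/

namespace Pool.Agent.H95.W.SI

open Pool.Agent.Q1.M4 (lat)
open Pool.Agent.H33.Q1 (lt)
open Pool.Agent.H54.W (Win CD NE)
open Pool.Agent.H72.W.N hiding TA mem_TA TB mem_TB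
open Pool.Agent.H34.W.Lin
open Pool.Agent.H62.W (ZS zone_Phi Phi phiG_le)
open Pool.Agent.H31.W (BoxD ONat)
open Pool.Agent.H49.W (toM ClsM)
open Pool.Agent.H49.W.N (boxL_win)
open Pool.Agent.H15.W (CaseV)
open Pool.Agent.H95.W (Gd gd_K natK)
open Pool.Agent.H95.W.N
open Pool.Agent.H95.W.BrS
open Pool.Agent.H20.W
open Pool.Agent.Q1.M6e.Wn (LW mW)
open Pool.Agent.H44.W
open G4

/-- **The position `v` of one window.** -/
theorem pt_win {C : CD} {n : ℤ} {he : n % 2 = 0} {h8 : 8 ≤ n} {c0 : Bool} {v : ℤ × ℤ} {M : ℤ}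
    (hC : LowC C) (g : Gd C n he h8 c0 v M) {η : ℝ} {R : ℕ} (hη : 64 ≤ η * R)
    (hηn : η * R ≤ n) (hηM : η * R ≤ 32 * M) (h2 : ((n * C.H : ℤ) : ℝ) ≤ R / η)
    (w2 : ((n * C.W - (n * C.LO - 1) : ℤ) : ℝ) ≤ R / η) {Ψ : (NE → NE → Prop) → ℂ}
    (hΨ : ∀ a, ‖Ψ a‖ ≤ 1) {E : ℝ}
    (hN : ∀ O : OutB (C.win n he h8 (crz c0 v.2)), ONat O (Zz C n c0 v) →
      ∀ S ⊆ FR (C.win n he h8 (crz c0 v.2)) false,
      (∀ x y, lt (x, y) ∈ Zz C n c0 v → FRt (C.win n he h8 (crz c0 v.2)) false x y →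
        x + sh false = n * C.W → 0 ≤ y → y < n * C.H →
        (lt (x, y) ∈ S ↔ natc (C.win n he h8 (crz c0 v.2)) false x y = true)) → ∀ s ⊆ arc4 false,
      ‖nS C n c0 v he h8 Ψ false s -
        Pool.Agent.Q1.Ec (fun _ => (1 / 2 : ℂ)) (Pool.Agent.H62.W.ET (C.win n he h8 (crz c0 v.2)) false
          (Pool.Agent.H31.W.Tg (C.win n he h8 (crz c0 v.2)) false (s.image gSd)))
        (fun ω => Ph C n c0 v Ψ (ω ∪ Pool.Agent.H62.W.WT O false
          (Pool.Agent.H31.W.Tg (C.win n he h8 (crz c0 v.2)) false (s.image gSd)) S))‖ ≤ E) :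
    ∃ (σ : Type) (y : σ → ModG G4),
      PtD (4 ^ (8 * (3 * (C.H.toNat + 1)) + 4)) E (arc4 false) hd4
        (fun s => nS C n c0 v he h8 Ψ false s) (fun N => vS C n c0 v he h8 Ψ false N) y ∧
      ∀ i, ClsM PI 1 η R (y i) := by
  have G := posI_win hC g hη hηn hηM h2 w2
  obtain ⟨O, hO⟩ := exists_outB (C.win n he h8 (crz c0 v.2)) (Wf (C.win n he h8 (crz c0 v.2))
    (ZS (bX1 C n) (bX2 C n c0 v.2) (bY1 n) (bY2 C n) v.1 v.2)) fun x y h => (mem_Wf.1 h).2.1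
  obtain ⟨w0⟩ := exists_KL G.co
  have hw : v.1 ≤ (C.win n he h8 (crz c0 v.2)).w := by
    have m4 := g.m4
    have h := (g.dp false v.1 v.2 (by omega) (by omega) (by omega) (by omega)).2.2.2
    rw [sh_false] at h
    omega
  have hP : LocZ (Ph C n c0 v Ψ) (bX1 C n) (bX2 C n c0 v.2) (bY1 n) (bY2 C n) v.1 v.2 :=
    fun w => (zone_Phi C n c0).inter
  have hK : 2 ≤ M + 4 := by have := g.m4; omega
  have hl : ∀ k ∈ Tlf (C.win n he h8 (crz c0 v.2)) false, Pool.Agent.H49.W.Leaf (Ph C n c0 v Ψ)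
      (Pool.Agent.H13.R45.ev k.2) (Pool.Agent.H13.R45.gp k.2) := fun k hk =>
    leafI (zone_Phi C n c0) G.str hK G.box G.hL hk
  have hON : ONat O (Zz C n c0 v) := by
    intro x y h1 h2
    rw [hO, mem_Wf]
    exact ⟨fun h => h.2.2, fun h => ⟨h1, h2, h⟩⟩
  have key := G.ptD (N := fun s => nS C n c0 v he h8 Ψ false s) (E := E) hO hw hP hl (fun S hS s hs =>
    hN O hON (frz O S) (frz_sub O S) (fun x y _ h2 h3 h4 h5 => frz_col O hS h2 h3 h4 h5) s hs) w0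
  refine ⟨_, _, key.mono ?_ le_rfl, fun S => ⟨_, _, G.mem hO S.2 (fun E W => (zone_Phi C n c0).tog E W) w0,
    xI_HV (fun w => hΨ _) w0, rfl⟩⟩
  rw [show (2 * 2 : ℝ) = 4 by norm_num]
  exact pow_le_pow_right₀ (by norm_num) card_win

/-- **The line response of the world `false`**, every functional bounded by one. -/
theorem pt_I {C : CD} (hC : LowC C) (c0 : Bool) {Ψ : (NE → NE → Prop) → ℂ} (hΨ : ∀ a, ‖Ψ a‖ ≤ 1) :
    PTs PI C c0 Ψ false := by
  intro K hK hKc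
  obtain ⟨L, α, hL, hα, n0, hnat⟩ := natK C c0 hK hKc
  obtain ⟨δ, hδ, n1, hgd⟩ := gd_K C c0 hK hKc
  set Q : ℝ := |(C.H : ℝ)| + |(C.W : ℝ) - C.LO| + 2 with hQ
  have hQ0 : 2 ≤ Q := by
    have := abs_nonneg (C.H : ℝ)
    have := abs_nonneg ((C.W : ℝ) - C.LO)
    linarith
  refine ⟨min (min δ 1) (1 / Q), lt_min (lt_min hδ one_pos) (by positivity), fun η hη hη0 => ?_⟩
  have e1 : η ≤ δ := hη0.trans ((min_le_left _ _).trans (min_le_left _ _))
  have e2 : η ≤ 1 := hη0.trans ((min_le_left _ _).trans (min_le_right _ _))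
  have e3 : η * Q ≤ 1 := by
    have := hη0.trans (min_le_right _ _)
    rwa [le_div_iff₀ (by linarith)] at this
  obtain ⟨m1, hm1⟩ := exists_nat_gt (32 / η)
  refine ⟨4 ^ (8 * (3 * (C.H.toNat + 1)) + 4), L, α, hL, hα, max (max n0 n1) m1, fun m hm he h8 v hv => ?_⟩
  have k0 : n0 ≤ m := ((le_max_left _ _).trans (le_max_left _ _)).trans hm
  have k1 : n1 ≤ m := ((le_max_right _ _).trans (le_max_left _ _)).trans hm
  have k2 : m1 ≤ m := (le_max_right _ _).trans hm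
  have hcast : (((2 * (m : ℤ) : ℤ)) : ℝ) = ((2 * m : ℕ) : ℝ) := by push_cast; rfl
  have hv' : lat v / (((2 * (m : ℤ) : ℤ) : ℝ) : ℂ) ∈ K := by rw [hcast]; exact hv
  obtain ⟨g, hM⟩ := hgd (2 * m) (by omega) he h8 v hv'
  have hm2 : 32 / η < m := hm1.trans_le (by exact_mod_cast k2)
  rw [div_lt_iff₀ hη] at hm2
  have hmp : (0 : ℝ) < ((2 * m : ℕ) : ℝ) := by
    push_cast
    by_contra hc
    push Not at hc
    nlinarith
  have hR : 64 ≤ η * ((2 * m : ℕ) : ℝ) := by push_cast; linarith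
  have hb : ∀ x : ℝ, x ≤ Q → ((2 * m : ℕ) : ℝ) * x ≤ ((2 * m : ℕ) : ℝ) / η := by
    intro x hx
    rw [le_div_iff₀ hη, mul_assoc]
    refine mul_le_of_le_one_right hmp.le ?_
    calc x * η ≤ Q * η := mul_le_mul_of_nonneg_right hx hη.le
      _ ≤ 1 := by linarith
  refine pt_win hC g hR ?_ ?_ ?_ ?_ hΨ fun O hO S hS hcol s hs => ?_
  · rw [hcast]
    exact mul_le_of_le_one_left hmp.le e2
  · have h5 : δ * (((2 * (m : ℤ) : ℤ)) : ℝ) = δ * ((2 * m : ℕ) : ℝ) := by rw [hcast]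
    have h3 : η * ((2 * m : ℕ) : ℝ) ≤ δ * ((2 * m : ℕ) : ℝ) := mul_le_mul_of_nonneg_right e1 hmp.le
    have h4 : (0 : ℝ) ≤ δ * ((2 * m : ℕ) : ℝ) := by positivity
    rw [h5] at hM
    rw [h5]
    linarith
  · have h3 := hb (C.H : ℝ) (by
      have := le_abs_self (C.H : ℝ)
      have := abs_nonneg ((C.W : ℝ) - C.LO)
      linarith)
    refine le_trans (le_of_eq ?_) h3
    push_cast
    ring
  · have h3 := hb ((C.W : ℝ) - C.LO + 1) (by
      have := le_abs_self ((C.W : ℝ) - C.LO)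
      have := abs_nonneg (C.H : ℝ)
      linarith)
    refine le_trans ?_ h3
    have h4 : (1 : ℝ) ≤ ((2 * m : ℕ) : ℝ) := by
      have : (8 : ℝ) ≤ ((2 * (m : ℤ) : ℤ) : ℝ) := by exact_mod_cast h8
      rw [hcast] at this
      linarith
    push_cast at h4 ⊢
    linarith
  · have hB : BoxD (C.win (2 * m) he h8 (crz c0 v.2)) (bX1 C (2 * m)) (bX2 C (2 * m) c0 v.2)
        (bY1 (2 * m)) (bY2 C (2 * m)) := by
      refine ⟨?_, ?_, ?_, ?_⟩
      · change 2 * (m : ℤ) * C.LO - 2 * m + 4 ≤ 2 * m * C.LO - 1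
        omega
      · change 2 * (m : ℤ) * C.W + 4 ≤ 2 * m * C.W + 2 * m + _
        split_ifs <;> omega
      · change -(2 * (m : ℤ)) ≤ -4
        omega
      · change 2 * (m : ℤ) * C.H + 4 ≤ 2 * m * C.H + 2 * m
        omega
    have := hnat (2 * m) (by omega) he h8 v hv' _ _ _ _ hB Ψ hΨ O hO false (s.image gSd) (gSd_R hs) S hS hcol
    rw [hcast] at this
    exact this

/-- **`StPT PI false`.** -/
theorem stPT_false : StPT PI false := fun _ hC c0 θ => pt_I hC c0 (PsT_le θ)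

end Pool.Agent.H95.W.SI
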