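import Pool.Agent.H95.W.BdV
import Pool.Agent.H20.Sp.BdW

set_option autoImplicit false
open Finset

/-!
# Uniform bound for complex weights near one: an abstract functional on the ties of a natural window

`bd_win` : for every functional `V ω P` of the layer and the ties of a natural window with `VTog`, bounded by `M`,
the total with weights near one or between zero and one is at most `K M`.
-/

namespace Pool.Agent.H95.W

open Pool.Agent.H75.Perc hiding ph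
open Pool.Agent.H75.TwoArm Pool.Agent.Q1 Pool.Agent.H33.Q1 Pool.Agent.Q1.M6b
open Pool.Agent.H75.Four hiding ev
open Pool.Agent.H69.Q1
open Pool.Agent.H46.Sp (Win Out)
open Pool.Agent.H46.Sp.Win
open Pool.Agent.H74.Win (CA InP EN FZ OutB qs mem_EN odd_TB sh sh_nonneg sh_le fillc)
open Pool.Agent.H42.Sp (Sd Ix kt rt)
open Pool.Agent.H13.R45 (gp ev Ag ag_he ag_ve OutF)
open Pool.Agent.H39.Q1 hiding OutF
open Pool.Agent.H20.Q1 Pool.Agent.H20.Sp
open Pool.Agent.H13.Sp (TA fmA colp XA_eq FR_eq FR WA WlA LaA LBA bA oA arc rep InL Wide HasG multiA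
  farA_two mem_LBA Dp OnT LaA_sub exists_tie)
open Pool.Agent.Q1.M6e (LC La Lk)
open Pool.Agent.Q1.M6c
open Pool.Agent.H15.W (VTog TotV)

/-- **Uniform bound for complex weights near one**, abstract functional on the ties of a natural window. -/
theorem bd_win {η : ℝ} (hη : 0 < η) (n0 : ℕ) {Z : ℝ} (hZ : 0 ≤ Z) :
    ∃ (K : ℝ) (R0 : ℕ), 0 ≤ K ∧ ∀ R : ℕ, R0 ≤ R → ∀ (D : Win) (O : OutB D) (s0 N : ℤ)
      (G : Finset ℤ), WinX η n0 R O s0 N G → ∀ (p : Bool) (S : Finset (ℤ × ℤ)), S ⊆ FR D p →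
      ∀ m : ℤ, ⌊η * R / 4⌋ ≤ m → m + 3 ≤ N →
      ∀ (V : Finset (ℤ × ℤ) → Finset (ℤ × ℤ) → ℂ) (M : ℝ) (s : ℤ × ℤ → ℂ),
      VTog V (WA O p S) (LBA D p (m + 1)) (TA D p) (fmA D p s0) (colp D) (WlA D p s0 N S)
        (LaA D p s0 m) (bA D p) (oA D p) →
      (∀ ω ⊆ LBA D p (m + 1), ∀ P ⊆ TA D p, ‖V ω P‖ ≤ M) →
      (∀ e ∈ TA D p, Nr (Z * (R : ℝ) ^ (-(2 / 3) : ℝ)) (s e)) →
      ‖TotV V (LBA D p (m + 1)) (TA D p) s‖ ≤ K * M := by
  obtain ⟨C2, hC2, hbd⟩ := tot_bdV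
  set K : ℕ := 218 * (n0 + 1) with hK
  obtain ⟨J, R2, hnum⟩ := bd_num (Z := Z) (C := C2 * 4 ^ K * 2 ^ K) hη hZ (by positivity)
  refine ⟨1 + K * (K * 2 ^ J), ⌈R2⌉₊, by positivity, ?_⟩
  intro R hR D O s0 N G hX p S hS' m hm1 hN V M s hV hM hs
  have hR2 : R2 ≤ R := Nat.ceil_le.1 hR
  obtain ⟨h16, hRp, Lr, k1, k2, k3⟩ := hnum R hR2
  obtain ⟨j, hG⟩ := hX.lev
  have hcut := hX.cut
  have m2 : (4 : ℤ) ≤ ⌊η * R / 4⌋ := by rw [Int.le_floor]; push_cast; linarith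
  have hN1 := hX.N1
  have hN4 : 4 * ⌊η * R / 4⌋ ≤ N := by
    have h1 : (⌊η * R / 4⌋ : ℝ) ≤ η * R / 4 := Int.floor_le _
    have : ((4 * ⌊η * R / 4⌋ : ℤ) : ℝ) ≤ N := by push_cast; linarith
    exact_mod_cast this
  set X := Pool.Agent.H13.Sp.XA O p S hS' with hXd
  have hlayer : LBA D p (m + 1) ⊆ EN D p := by
    intro e he
    obtain ⟨x, y, rfl⟩ := Pool.Agent.H74.R45.exists_lt (odd_TB he)
    exact mem_EN.2 (mem_LBA.1 he).1
  have hMul : Multi X (WA O p S) (EN D p) (LBA D p (m + 1)) (TA D p) (fmA D p s0) (colp D)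
      (WlA D p s0 N S) (LaA D p s0 m) (bA D p) (oA D p) :=
    multiA hS' (by omega) hX.free (by omega) (Subset.refl _) hlayer
  have hJL : (R : ℝ) / η ≤ ((J * Lr : ℕ) : ℝ) := by push_cast; exact k2
  have hJLp : 0 < J * Lr := by
    have : (0 : ℝ) < ((J * Lr : ℕ) : ℝ) := lt_of_lt_of_le (by positivity) hJL
    exact_mod_cast this
  have hJ : 1 ≤ J := Nat.pos_of_mul_pos_right hJLp
  have hL : 1 ≤ Lr := Nat.pos_of_mul_pos_left hJLp
  have hh : D.h ≤ 2 * (J * Lr) := by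
    have : (D.h : ℝ) ≤ ((J * Lr : ℕ) : ℝ) := hX.h2.trans hJL
    have h3 : D.h ≤ ((J * Lr : ℕ) : ℤ) := by exact_mod_cast this
    push_cast at h3
    have h4 : (0 : ℤ) ≤ (J : ℤ) * Lr := by positivity
    linarith
  have hw : D.b D.yQ - D.a (D.yP - 1) ≤ 2 * (J * Lr) := by
    have : ((D.b D.yQ - D.a (D.yP - 1) : ℤ) : ℝ) ≤ ((J * Lr : ℕ) : ℝ) := hX.w2.trans hJL
    have h3 : D.b D.yQ - D.a (D.yP - 1) ≤ ((J * Lr : ℕ) : ℤ) := by exact_mod_cast this
    push_cast at h3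
    have h4 : (0 : ℤ) ≤ (J : ℤ) * Lr := by positivity
    linarith
  have hcard := hX.card
  have hruns : ∀ i, RunsK (WA O p S) (EN D p) (TA D p) (TF (TA D p) (fmA D p s0) i)
      (WlA D p s0 N S i) (LaA D p s0 m i) (bA D p) (oA D p) (colp D i) Lr J K := by
    intro i
    refine RunsK.mono (runsK_XA (c := 10) (δ := dlt (colp D i)) hG (by norm_num) hL hJ hh hw
      (fun k hk => bA_kt hk) (fun e he => tie_of_TF he) ?_ ?_) ?_
    · intro i' g hg k k' hk hk' hT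
      refine mem_TF.2 ⟨ca_mem hk'.ca, ?_⟩
      rw [← fmA_seg hcut hG (by norm_num) hg hk hk']
      exact (mem_TF.1 hT).2
    · intro i' g hg k ρ hk hT h1 h2
      have hfm := (mem_TF.1 hT).2
      have := flat_seg (O := O) (m := m) (R := ρ + 1) hS' hcut hG hX.fat hX.ldg hX.port hg hk
        (by omega) (by omega) (by omega) (by omega)
      rwa [hfm] at this
    · have h3 : (10 : ℤ).toNat = 10 := rfl
      rw [h3, hK]
      omega
  have hfam := card_fam (p := p) (c := 10) hcut hG (by norm_num)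
  have key := hbd X (WA O p S) (EN D p) (LBA D p (m + 1)) (TA D p)
    (fmA D p s0) (colp D) (WlA D p s0 N S) (LaA D p s0 m) (bA D p) (oA D p)
    s V Lr J K K M (Z * (R : ℝ) ^ (-(2 / 3) : ℝ)) ((TA D p).image (fmA D p s0))
    (fun e he => mem_image_of_mem _ he) ?_ (by omega) hMul hV hruns (by positivity) hM hs k3
  · refine key.trans (le_of_eq ?_)
    ring
  · have h3 : (10 : ℤ).toNat = 10 := rfl
    rw [h3] at hfam
    omega

end Pool.Agent.H95.W
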